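import Pool.Agent.H152.BKRP2

set_option autoImplicit false

/-! # Project BK (helper979): random products decay at the rate of the mean -/

open Filter Topology Finset Pool.Agent.H979.BK

namespace Pool.Agent.H152

namespace RPx

section spec

variable {F : Type} [NormedAddCommGroup F] [NormedSpace ℂ F]

theorem iter_lo (Q G : F →L[ℂ] F) (hQ : ∀ x, Q (G x) = G (Q x)) (e1 : ℝ) (he1 : 0 ≤ e1)
    (hlow : ∀ w : F →L[ℂ] ℂ, e1 * ‖w.comp Q‖ ≤ ‖(w.comp Q).comp G‖) (w : F →L[ℂ] ℂ) (K : ℕ) :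
    e1 ^ K * ‖w.comp Q‖ ≤ ‖(w.comp (G ^ K)).comp Q‖ := by
  induction K with
  | zero =>
    have h1 : w.comp (G ^ 0) = w := by
      ext x
      simp
    rw [h1, pow_zero, one_mul]
  | succ K ih =>
    have h1 : (w.comp (G ^ (K + 1))).comp Q = ((w.comp (G ^ K)).comp Q).comp G := by
      ext x
      simp [pow_succ, hQ]
    rw [h1]
    calc e1 ^ (K + 1) * ‖w.comp Q‖ = e1 * (e1 ^ K * ‖w.comp Q‖) := by ring
      _ ≤ e1 * ‖(w.comp (G ^ K)).comp Q‖ := mul_le_mul_of_nonneg_left ih he1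
      _ ≤ _ := hlow _

theorem iter_up (Q G : F →L[ℂ] F) (hQ : ∀ x, Q (G x) = G (Q x)) (e3 : ℝ) (he3 : 0 ≤ e3)
    (hup : ∀ w : F →L[ℂ] ℂ, ‖(w.comp Q).comp G‖ ≤ e3 * ‖w.comp Q‖) (w : F →L[ℂ] ℂ) (K : ℕ) :
    ‖(w.comp (G ^ K)).comp Q‖ ≤ e3 ^ K * ‖w.comp Q‖ := by
  induction K with
  | zero =>
    have h1 : w.comp (G ^ 0) = w := by
      ext x
      simp
    rw [h1, pow_zero, one_mul]
  | succ K ih =>
    have h1 : (w.comp (G ^ (K + 1))).comp Q = ((w.comp (G ^ K)).comp Q).comp G := by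
      ext x
      simp [pow_succ, hQ]
    rw [h1]
    calc ‖((w.comp (G ^ K)).comp Q).comp G‖ ≤ e3 * ‖(w.comp (G ^ K)).comp Q‖ := hup _
      _ ≤ e3 * (e3 ^ K * ‖w.comp Q‖) := mul_le_mul_of_nonneg_left ih he3
      _ = e3 ^ (K + 1) * ‖w.comp Q‖ := by ring

/-- close functionals have close slow and fast parts -/
theorem close (A : F →L[ℂ] F) (CQ : ℝ) (h1 : ‖A‖ ≤ CQ) (w w' : F →L[ℂ] ℂ) (r : ℝ)
    (h : ‖w' - w‖ ≤ r) : ‖w'.comp A - w.comp A‖ ≤ CQ * r := by
  have h2 : w'.comp A - w.comp A = (w' - w).comp A := by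
    ext x
    simp
  rw [h2]
  refine (ContinuousLinearMap.opNorm_comp_le _ _).trans ?_
  rw [mul_comm]
  exact mul_le_mul h1 h (norm_nonneg _) ((norm_nonneg _).trans h1)

end spec

section time

variable {X I : Type} [Fintype I] {p : I → ℝ} {φ : I → X → X}

open Classical in
/-- the norm is nonincreasing, so that it is enough to look at a later time -/
theorem later (hp : ∀ i, 0 ≤ p i) (hs : ∑ i, p i = 1) (nrm : X → ℝ)
    (h2 : ∀ i x, nrm (φ i x) ≤ nrm x) (B : ℝ) (j t : ℕ) (hjt : j ≤ t) (x : X) :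
    (MK p φ)^[j] (fun y => if nrm y < B then (1 : ℝ) else 0) x ≤
      (MK p φ)^[t] (fun y => if nrm y < B then (1 : ℝ) else 0) x := by
  obtain ⟨r, rfl⟩ := Nat.exists_eq_add_of_le hjt
  rw [Function.iterate_add_apply]
  refine rp_mono hp (fun _ => True) (fun _ _ _ => trivial) j _ _ (fun y _ => ?_) x trivial
  by_cases hy : nrm y < B
  · rw [if_pos hy]
    have h3 := rp_mono (φ := φ) hp (fun y => nrm y < B) (fun i y hy => lt_of_le_of_lt (h2 i y) hy) r
      (fun _ => (1 : ℝ)) (fun y => if nrm y < B then (1 : ℝ) else 0)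
      (fun y hy => by rw [if_pos hy]) y hy
    rwa [rp_const hs] at h3
  · rw [if_neg hy]
    have h3 := rp_mono (φ := φ) hp (fun _ => True) (fun _ _ _ => trivial) r
      (fun _ => (0 : ℝ)) (fun y => if nrm y < B then (1 : ℝ) else 0)
      (fun y _ => by split_ifs <;> norm_num) y trivial
    rwa [rp_const hs] at h3

end time

end RPx

open RPx

open Classical in
theorem bk_rp (h1 : S_SPEC) (h2 : S_AZ) (h3 : S_WORD) (h4 : S_HIT) (h5 : S_BOOK) : S_RP := by
  intro F _ _ _ ι _ P μ v z hsys w0 hw0 ε hε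
  have : CompleteSpace F := FiniteDimensional.complete ℂ F
  obtain ⟨ε0, hε0, hspec⟩ := h1 F (UU P μ) v z hsys.ne hsys.eig hsys.top
  set ε' : ℝ := min ε ε0 / 4 with hε'
  have hmin : 0 < min ε ε0 := lt_min hε hε0
  have hε'p : 0 < ε' := by positivity
  have hε'1 : 4 * ε' ≤ ε := by
    have := min_le_left ε ε0
    linarith
  have hε'2 : ε' < ε0 := by
    have := min_le_right ε ε0
    linarith
  obtain ⟨T, hT, Q, hQv, hQc, hlow, hup⟩ := hspec ε' hε'p hε'2
  have hT0 : 0 < T := by linarith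
  have hQ : ∀ x, Q (GG (UU P μ) T x) = GG (UU P μ) T (Q x) := by
    intro x
    exact congrArg (fun f : F →L[ℂ] F => f x) hQc
  have hQ' : ∀ x, (1 - Q) (GG (UU P μ) T x) = GG (UU P μ) T ((1 - Q) x) := by
    intro x
    simp [hQ]
  obtain ⟨δ1, hδ1, hcore⟩ := core h2 h3 h4 h5 P μ v z hsys T ε' hT hε'p Q hQ hlow hup (ε / 2)
    (by linarith)
  have hz := z_norm_le hsys
  have hzr : |z.re| ≤ 1 := (Complex.abs_re_le_norm z).trans hz
  rw [abs_le] at hzr
  set κ0 : ℝ := 1 - z.re with hκ0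
  have hκ : 0 ≤ κ0 := by linarith
  have hκ2 : κ0 ≤ 2 := by linarith
  set G := GG (UU P μ) T with hG
  set e1 : ℝ := Real.exp (-(κ0 + ε') * T) with he1
  set e3 : ℝ := Real.exp (-(κ0 + 3 * ε') * T) with he3
  have he1p : 0 < e1 := Real.exp_pos _
  have he3p : 0 < e3 := Real.exp_pos _
  have h13 : e3 < e1 := Real.exp_lt_exp.2 (by nlinarith)
  have hNs : 0 < ‖w0.comp Q‖ := by
    rw [norm_pos_iff]
    intro h6
    apply hw0
    have h7 : (w0.comp Q) v = 0 := by
      rw [h6]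
      rfl
    rw [ContinuousLinearMap.comp_apply, hQv] at h7
    exact h7
  -- the start
  obtain ⟨n, hn⟩ := exists_pow_lt_of_lt_one
    (by positivity : 0 < ‖w0.comp Q‖ / (2 * (‖w0.comp (1 - Q)‖ + 1))) ((div_lt_one he1p).2 h13)
  set K0 : ℕ := n + 1 with hK0
  set w1 : F →L[ℂ] ℂ := w0.comp (G ^ K0) with hw1
  have hlo1 := iter_lo Q G hQ e1 he1p.le hlow w0 K0
  have hup1 := iter_up (1 - Q) G hQ' e3 he3p.le hup w0 K0
  rw [← hw1] at hlo1 hup1
  have he1K : 0 < e1 ^ K0 := by positivity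
  have hw1p : 0 < ‖w1.comp Q‖ := lt_of_lt_of_le (mul_pos he1K hNs) hlo1
  have hratio : 2 * ‖w1.comp (1 - Q)‖ ≤ ‖w1.comp Q‖ := by
    have h6 : (e3 / e1) ^ K0 ≤ (e3 / e1) ^ n :=
      pow_le_pow_of_le_one (by positivity) ((div_le_one he1p).2 h13.le) (Nat.le_succ n)
    have h7 : (e3 / e1) ^ K0 < ‖w0.comp Q‖ / (2 * (‖w0.comp (1 - Q)‖ + 1)) := lt_of_le_of_lt h6 hn
    rw [div_pow, lt_div_iff₀ (by positivity), div_mul_eq_mul_div, div_lt_iff₀ he1K] at h7
    have h8 : 0 < e3 ^ K0 := by positivity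
    nlinarith
  set CQ : ℝ := 1 + ‖Q‖ + ‖1 - Q‖ with hCQ
  have hCQ1 : 1 ≤ CQ := by
    have := norm_nonneg Q
    have := norm_nonneg (1 - Q)
    linarith
  have hQn : ‖Q‖ ≤ CQ := by
    have := norm_nonneg (1 - Q)
    linarith
  have hQn' : ‖1 - Q‖ ≤ CQ := by
    have := norm_nonneg Q
    linarith
  set η' : ℝ := ‖w1.comp Q‖ / (8 * CQ * (‖w0‖ + 1)) with hη'
  have hη'p : 0 < η' := by positivity
  have hη'2 : CQ * (η' * ‖w0‖) ≤ ‖w1.comp Q‖ / 8 := by
    have h6 : CQ * (η' * (‖w0‖ + 1)) = ‖w1.comp Q‖ / 8 := by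
      rw [hη']
      field_simp
    rw [← h6]
    exact mul_le_mul_of_nonneg_left (mul_le_mul_of_nonneg_left (by linarith) hη'p.le) (by linarith)
  have hK0T : 0 < (K0 : ℝ) * T := by
    rw [hK0]
    push_cast
    positivity
  obtain ⟨C', c', δB, hC', hc', hδB, hAZ⟩ := h2 F ι P μ hsys.norm (fun s => (hsys.pos s).le)
    hsys.sum (K0 * T) η' hK0T hη'p
  have hgw : w0.comp (GG (UU P μ) (K0 * T)) = w1 := by
    rw [GG_pow]
  set b1 : ℝ := 7 / 8 * ‖w1.comp Q‖ with hb1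
  have hb1p : 0 < b1 := by positivity
  have hstart : ∀ w' : F →L[ℂ] ℂ, ‖w' - w1‖ ≤ η' * ‖w0‖ → Al Q w' ∧ b1 ≤ Mx Q w' := by
    intro w' hw'
    have h6 := (close Q CQ hQn w1 w' _ hw').trans hη'2
    have h7 := (close (1 - Q) CQ hQn' w1 w' _ hw').trans hη'2
    have h8 : ‖w1.comp Q‖ ≤ ‖w'.comp Q‖ + ‖w1.comp Q‖ / 8 := by
      have h9 := norm_sub_norm_le (w1.comp Q) (w'.comp Q)
      rw [norm_sub_rev] at h9
      linarith
    have h9 : ‖w'.comp (1 - Q)‖ ≤ ‖w1.comp (1 - Q)‖ + ‖w1.comp Q‖ / 8 := by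
      have h10 := norm_sub_norm_le (w'.comp (1 - Q)) (w1.comp (1 - Q))
      linarith
    constructor
    · show ‖w'.comp (1 - Q)‖ ≤ ‖w'.comp Q‖
      linarith
    · refine le_trans ?_ (le_max_left _ _)
      linarith
  obtain ⟨δC, hδC, htail⟩ := tail c' (ε / (2 * C')) 0 hc' (by positivity)
  refine ⟨min (min δ1 δB) (min (min δC (1 / 4)) (T * ε' / (κ0 + 4 * ε'))),
    Real.log CQ - Real.log b1 + (κ0 + 3 * ε') * T, by positivity, fun δ hδ hδ0 j => ?_⟩
  simp only [lt_min_iff] at hδ0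
  obtain ⟨⟨hδ1', hδB'⟩, ⟨hδC', hδ4⟩, hδT⟩ := hδ0
  set C0 : ℝ := Real.log CQ - Real.log b1 + (κ0 + 3 * ε') * T with hC0
  set m : ℕ := ⌊T / δ⌋₊ with hm
  set m0 : ℕ := ⌊(K0 * T) / δ⌋₊ with hm0
  have hm1 : κ0 + 3 * ε' < ε' * m := by
    have h6 : T / δ < m + 1 := Nat.lt_floor_add_one _
    have h7 : (κ0 + 4 * ε') / ε' < T / δ := by
      rw [lt_div_iff₀ (by positivity)] at hδT
      rw [div_lt_div_iff₀ hε'p hδ]
      linarith
    have h8 : (κ0 + 4 * ε') / ε' < m + 1 := h7.trans h6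
    rw [div_lt_iff₀ hε'p] at h8
    linarith
  have hm2 : 0 < m := by
    rcases Nat.eq_zero_or_pos m with h6 | h6
    · exfalso
      rw [h6] at hm1
      simp at hm1
      linarith
    · exact h6
  have hTm : T ≤ (m + 1) * δ := by
    have h6 : T / δ < m + 1 := Nat.lt_floor_add_one _
    rw [div_lt_iff₀ hδ] at h6
    exact h6.le
  set M : ℕ := j / m + 1 with hM
  have hjt : j ≤ m0 + m * M := by
    have h6 : j < m * (j / m + 1) := Nat.lt_mul_div_succ j hm2
    rw [← hM] at h6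
    omega
  set B : ℝ := Real.exp (-(κ0 + ε) * δ * j - C0) with hB
  have hBp : 0 < B := Real.exp_pos _
  have hKK : KK P μ δ = MK μ (fun s w => w.comp (AA P δ s)) := rfl
  have hpos : ∀ s, 0 ≤ μ s := fun s => (hsys.pos s).le
  have hlater := later (φ := fun s (w : F →L[ℂ] ℂ) => w.comp (AA P δ s)) hpos hsys.sum
    (fun w => ‖w‖) (fun s w => AA_le P hsys.norm δ hδ.le (by linarith) s w) B j (m0 + m * M) hjt w0
  rw [← hKK] at hlater
  refine hlater.trans ?_
  rw [Function.iterate_add_apply]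
  -- the estimate of the thresholds
  have hthr : (κ0 + 3 * ε') * T * M ≤ (κ0 + ε) * δ * j + (κ0 + 3 * ε') * T := by
    have h6 : ((j / m : ℕ) : ℝ) * m ≤ j := by
      exact_mod_cast Nat.div_mul_le_self j m
    have h7 : (κ0 + 3 * ε') * T ≤ (κ0 + ε) * δ * m := by
      calc (κ0 + 3 * ε') * T ≤ (κ0 + 3 * ε') * ((m + 1) * δ) :=
            mul_le_mul_of_nonneg_left hTm (by positivity)
        _ = ((κ0 + 3 * ε') * m + (κ0 + 3 * ε')) * δ := by ring
        _ ≤ ((κ0 + 3 * ε') * m + ε' * m) * δ :=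
            mul_le_mul_of_nonneg_right (by linarith) hδ.le
        _ = (κ0 + 4 * ε') * (m * δ) := by ring
        _ ≤ (κ0 + ε) * (m * δ) := mul_le_mul_of_nonneg_right (by linarith) (by positivity)
        _ = (κ0 + ε) * δ * m := by ring
    have h8 : (κ0 + 3 * ε') * T * ((j / m : ℕ) : ℝ) ≤ (κ0 + ε) * δ * j := by
      calc (κ0 + 3 * ε') * T * ((j / m : ℕ) : ℝ) ≤ (κ0 + ε) * δ * m * ((j / m : ℕ) : ℝ) :=
            mul_le_mul_of_nonneg_right h7 (Nat.cast_nonneg _)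
        _ = (κ0 + ε) * δ * (((j / m : ℕ) : ℝ) * m) := by ring
        _ ≤ (κ0 + ε) * δ * j := mul_le_mul_of_nonneg_left h6 (by positivity)
    rw [hM]
    push_cast
    linarith
  have hmain : ∀ w' : F →L[ℂ] ℂ, (KK P μ δ)^[m * M] (fun w => if ‖w‖ < B then (1 : ℝ) else 0) w' ≤
      (if η' * ‖w0‖ < ‖w' - w0.comp (GG (UU P μ) (K0 * T))‖ then (1 : ℝ) else 0) + ε / 2 := by
    intro w'
    rw [hgw]
    by_cases hbad : η' * ‖w0‖ < ‖w' - w1‖
    · rw [if_pos hbad]
      have h6 := rp_mono (φ := fun s (w : F →L[ℂ] ℂ) => w.comp (AA P δ s)) hpos (fun _ => True)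
        (fun _ _ _ => trivial) (m * M) (fun w => if ‖w‖ < B then (1 : ℝ) else 0) (fun _ => (1 : ℝ))
        (fun y _ => by
          show (if ‖y‖ < B then (1 : ℝ) else 0) ≤ 1
          split_ifs <;> norm_num) w' trivial
      rw [rp_const hsys.sum, ← hKK] at h6
      linarith
    · rw [if_neg hbad, zero_add]
      obtain ⟨h6, h7⟩ := hstart w' (not_lt.1 hbad)
      refine le_trans ?_ (hcore δ hδ hδ1' w' h6 M)
      have hw'0 : w' ≠ 0 := by
        intro h8
        have h9 : Mx Q w' = 0 := by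
          unfold Mx
          rw [h8, ContinuousLinearMap.zero_comp, ContinuousLinearMap.zero_comp, norm_zero, max_self]
        linarith
      rw [hKK]
      refine rp_mono hpos (fun w => w ≠ 0) (fun s w hw => ?_) (m * M) _ _ (fun y hy => ?_) w' hw'0
      · have h8 := AA_ge P hsys.norm δ hδ.le (by linarith) s w
        have h9 : 0 < (1 - 2 * δ) * ‖w‖ := mul_pos (by linarith) (norm_pos_iff.2 hw)
        exact norm_pos_iff.1 (lt_of_lt_of_le h9 h8)
      · by_cases h8 : ‖y‖ < B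
        · have h9 : Real.log (Mx Q y) < Real.log (Mx Q w') - (κ0 + 3 * ε') * T * M := by
            have h10 : 0 < Mx Q y := by
              have h11 := norm_le_Mx Q y
              have h12 : 0 < ‖y‖ := norm_pos_iff.2 hy
              linarith
            have h11 : Mx Q y < CQ * B :=
              lt_of_le_of_lt (Mx_le Q CQ hQn hQn' y) (mul_lt_mul_of_pos_left h8 (by linarith))
            have h12 := Real.log_lt_log h10 h11
            rw [Real.log_mul (by linarith) hBp.ne', hB, Real.log_exp] at h12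
            have h13 := Real.log_le_log hb1p h7
            rw [hC0] at h12
            linarith
          rw [if_pos h8, if_pos h9]
        · rw [if_neg h8]
          split_ifs <;> norm_num
  have h6 := rp_mono (φ := fun s (w : F →L[ℂ] ℂ) => w.comp (AA P δ s)) hpos (fun _ => True)
    (fun _ _ _ => trivial) m0 _ _ (fun y _ => hmain y) w0 trivial
  rw [rp_add_const hsys.sum, ← hKK] at h6
  have h7 := hAZ δ hδ hδB' w0
  rw [← hm0] at h7
  have h8 := htail δ hδ hδC'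
  have h9 : C' * Real.exp (-c' / δ) ≤ ε / 2 := by
    calc C' * Real.exp (-c' / δ) ≤ C' * (ε / (2 * C') * δ ^ 0) := mul_le_mul_of_nonneg_left h8 hC'.le
      _ = ε / 2 := by
        rw [pow_zero]
        field_simp
  linarith

end Pool.Agent.H152
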