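import Pool.Agent.H979.BK.Stm

set_option autoImplicit false

/-! # Project BK (helper979): random products, preliminary lemmas -/

open Filter Topology Finset Pool.Agent.H979.BK

namespace Pool.Agent.H152.RPx

section mk

variable {X I : Type} [Fintype I] {p : I → ℝ} {φ : I → X → X}

theorem rp_mono (hp : ∀ i, 0 ≤ p i) (S : X → Prop) (hS : ∀ i x, S x → S (φ i x)) (n : ℕ) :
    ∀ (f f' : X → ℝ), (∀ x, S x → f x ≤ f' x) →
      ∀ x, S x → (MK p φ)^[n] f x ≤ (MK p φ)^[n] f' x := by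
  induction n with
  | zero => intro f f' h x hx; exact h x hx
  | succ n ih =>
    intro f f' h x hx
    rw [Function.iterate_succ_apply, Function.iterate_succ_apply]
    refine ih _ _ (fun y hy => ?_) x hx
    unfold MK
    exact Finset.sum_le_sum fun i _ => mul_le_mul_of_nonneg_left (h _ (hS i y hy)) (hp i)

theorem rp_add_const (hs : ∑ i, p i = 1) (n : ℕ) (B : ℝ) : ∀ (f : X → ℝ) (x : X),
    (MK p φ)^[n] (fun y => f y + B) x = (MK p φ)^[n] f x + B := by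
  induction n with
  | zero => intro f x; rfl
  | succ n ih =>
    intro f x
    rw [Function.iterate_succ_apply, Function.iterate_succ_apply]
    have h1 : MK p φ (fun y => f y + B) = fun y => MK p φ f y + B := by
      funext y
      unfold MK
      simp only [mul_add]
      rw [Finset.sum_add_distrib, ← Finset.sum_mul, hs, one_mul]
    rw [h1, ih]

theorem rp_const (hs : ∑ i, p i = 1) (n : ℕ) (B : ℝ) (x : X) :
    (MK p φ)^[n] (fun _ => B) x = B := by
  induction n with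
  | zero => rfl
  | succ n ih =>
    rw [Function.iterate_succ_apply]
    have h1 : MK p φ (fun _ => B) = fun _ => B := by
      funext y
      unfold MK
      rw [← Finset.sum_mul, hs, one_mul]
    rw [h1, ih]

theorem rp_block (nrm : X → ℝ) (a : ℝ) (ha : 0 ≤ a) (hp : ∀ i, 0 ≤ p i) (hs : ∑ i, p i = 1)
    (h1 : ∀ i x, a * nrm x ≤ nrm (φ i x)) (h2 : ∀ i x, nrm (φ i x) ≤ nrm x) (m : ℕ) :
    ∃ (I' : Type) (_ : Fintype I') (p' : I' → ℝ) (φ' : I' → X → X), (∀ i, 0 ≤ p' i) ∧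
      (∑ i, p' i = 1) ∧ (∀ f, (MK p φ)^[m] f = MK p' φ' f) ∧
      (∀ i x, a ^ m * nrm x ≤ nrm (φ' i x)) ∧ (∀ i x, nrm (φ' i x) ≤ nrm x) := by
  induction m with
  | zero =>
    refine ⟨Unit, inferInstance, fun _ => 1, fun _ x => x, fun _ => zero_le_one, by simp, ?_, ?_, ?_⟩
    · intro f
      funext x
      simp [MK]
    · intro _ x
      simp
    · intro _ x
      exact le_rfl
  | succ m ih =>
    obtain ⟨I', _, p', φ', h3, h4, h5, h6, h7⟩ := ih
    refine ⟨I × I', inferInstance, fun t => p t.1 * p' t.2, fun t x => φ' t.2 (φ t.1 x), ?_, ?_, ?_,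
      ?_, ?_⟩
    · exact fun t => mul_nonneg (hp _) (h3 _)
    · rw [Fintype.sum_prod_type]
      simp only [← Finset.mul_sum, h4, mul_one, hs]
    · intro f
      rw [Function.iterate_succ_apply', h5]
      funext x
      unfold MK
      rw [Fintype.sum_prod_type]
      refine Finset.sum_congr rfl (fun i _ => ?_)
      rw [Finset.mul_sum]
      exact Finset.sum_congr rfl (fun i' _ => by ring)
    · intro t x
      calc a ^ (m + 1) * nrm x = a ^ m * (a * nrm x) := by ring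
        _ ≤ a ^ m * nrm (φ t.1 x) := mul_le_mul_of_nonneg_left (h1 _ _) (pow_nonneg ha m)
        _ ≤ nrm (φ' t.2 (φ t.1 x)) := h6 _ _
    · intro t x
      exact (h7 _ _).trans (h2 _ _)

end mk

section op

variable {F : Type} [NormedAddCommGroup F] [NormedSpace ℂ F] {ι : Type}

theorem AA_le (P : ι → F →L[ℂ] F) (hP : ∀ s, ‖P s‖ ≤ 1) (δ : ℝ) (h0 : 0 ≤ δ) (h1 : δ ≤ 1) (s : ι)
    (w : F →L[ℂ] ℂ) : ‖w.comp (AA P δ s)‖ ≤ ‖w‖ := by
  have h2 : ‖AA P δ s‖ ≤ 1 := by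
    unfold AA
    refine (norm_add_le _ _).trans ?_
    rw [norm_smul, norm_smul, Complex.norm_real, Complex.norm_real,
      Real.norm_of_nonneg (by linarith), Real.norm_of_nonneg h0]
    have h3 : ‖(1 : F →L[ℂ] F)‖ ≤ 1 := ContinuousLinearMap.norm_id_le
    have h4 := hP s
    nlinarith
  exact (w.opNorm_comp_le _).trans (mul_le_of_le_one_right (norm_nonneg _) h2)

theorem AA_ge (P : ι → F →L[ℂ] F) (hP : ∀ s, ‖P s‖ ≤ 1) (δ : ℝ) (h0 : 0 ≤ δ) (h1 : δ ≤ 1) (s : ι)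
    (w : F →L[ℂ] ℂ) : (1 - 2 * δ) * ‖w‖ ≤ ‖w.comp (AA P δ s)‖ := by
  have h2 : ((1 - δ : ℝ) : ℂ) • w = w.comp (AA P δ s) - ((δ : ℝ) : ℂ) • w.comp (P s) := by
    ext x
    simp [AA]
  have h3 : ‖((1 - δ : ℝ) : ℂ) • w‖ = (1 - δ) * ‖w‖ := by
    rw [norm_smul, Complex.norm_real, Real.norm_of_nonneg (by linarith)]
  have h4 : ‖((δ : ℝ) : ℂ) • w.comp (P s)‖ ≤ δ * ‖w‖ := by
    rw [norm_smul, Complex.norm_real, Real.norm_of_nonneg h0]
    refine mul_le_mul_of_nonneg_left ?_ h0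
    exact (w.opNorm_comp_le _).trans (mul_le_of_le_one_right (norm_nonneg _) (hP s))
  have h5 := norm_sub_le (w.comp (AA P δ s)) (((δ : ℝ) : ℂ) • w.comp (P s))
  rw [← h2, h3] at h5
  linarith

theorem dec (A G : F →L[ℂ] F) (hA : ∀ x, A (G x) = G (A x)) (w w' : F →L[ℂ] ℂ) :
    w'.comp A = (w.comp A).comp G + (w' - w.comp G).comp A := by
  ext x
  simp [hA]

theorem GG_pow (V : F →L[ℂ] F) [CompleteSpace F] (T : ℝ) (K : ℕ) :
    GG V (K * T) = GG V T ^ K := by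
  letI : NormedAlgebra ℚ (F →L[ℂ] F) := NormedAlgebra.restrictScalars ℚ ℂ _
  unfold GG
  rw [← NormedSpace.exp_nsmul]
  congr 1
  rw [← Nat.cast_smul_eq_nsmul ℂ, smul_smul]
  congr 1
  push_cast
  ring

theorem norm_UU_le [Fintype ι] (P : ι → F →L[ℂ] F) (μ : ι → ℝ) (hP : ∀ s, ‖P s‖ ≤ 1) (hμ : ∀ s, 0 ≤ μ s)
    (hs : ∑ s, μ s = 1) : ‖UU P μ‖ ≤ 1 := by
  unfold UU
  refine (norm_sum_le _ _).trans ?_
  rw [← hs]
  refine Finset.sum_le_sum (fun s _ => ?_)
  rw [norm_smul, Complex.norm_real, Real.norm_of_nonneg (hμ s)]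
  exact mul_le_of_le_one_right (hμ s) (hP s)

end op

theorem tail (c b : ℝ) (N : ℕ) (hc : 0 < c) (hb : 0 < b) : ∃ δ1 : ℝ, 0 < δ1 ∧
    ∀ δ : ℝ, 0 < δ → δ < δ1 → Real.exp (-c / δ) ≤ b * δ ^ N := by
  refine ⟨b * c ^ (N + 1) / ((N + 1).factorial : ℝ), by positivity, fun δ h0 h1 => ?_⟩
  have h2 := Real.pow_div_factorial_le_exp (c / δ) (by positivity) (N + 1)
  have h3 : Real.exp (-c / δ) = 1 / Real.exp (c / δ) := by
    rw [neg_div, Real.exp_neg, one_div]
  rw [h3, div_le_iff₀ (Real.exp_pos _)]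
  have h4 : 1 ≤ b * δ ^ N * ((c / δ) ^ (N + 1) / ((N + 1).factorial : ℝ)) := by
    have h5 : b * δ ^ N * ((c / δ) ^ (N + 1) / ((N + 1).factorial : ℝ)) =
        (b * c ^ (N + 1) / ((N + 1).factorial : ℝ)) / δ := by
      rw [div_pow, pow_succ δ N]
      field_simp
    rw [h5, le_div_iff₀ h0, one_mul]
    exact h1.le
  exact h4.trans (mul_le_mul_of_nonneg_left h2 (by positivity))

/-- `(1 - x) ^ n ≥ exp (- n (x + 2 x²))` -/
theorem one_sub_pow (x : ℝ) (h0 : 0 ≤ x) (h1 : x ≤ 1 / 2) (n : ℕ) :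
    Real.exp (-(n * (x + 2 * x ^ 2))) ≤ (1 - x) ^ n := by
  have h2 : Real.exp (-(x + 2 * x ^ 2)) ≤ 1 - x := by
    have h3 : 0 < 1 - x := by linarith
    have h4 : -(x + 2 * x ^ 2) ≤ Real.log (1 - x) := by
      have h5 := Real.one_sub_inv_le_log_of_pos h3
      refine le_trans ?_ h5
      have h6 : (1 - x)⁻¹ ≤ 1 + x + 2 * x ^ 2 := by
        rw [inv_eq_one_div, div_le_iff₀ h3]
        nlinarith [mul_nonneg (mul_nonneg h0 h0) (by linarith : (0 : ℝ) ≤ 1 - 2 * x)]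
      linarith
    rw [← Real.exp_log h3]
    exact Real.exp_le_exp.2 h4
  have h3 : Real.exp (-(n * (x + 2 * x ^ 2))) = Real.exp (-(x + 2 * x ^ 2)) ^ n := by
    rw [← Real.exp_nat_mul]
    congr 1
    ring
  rw [h3]
  exact pow_le_pow_left₀ (Real.exp_nonneg _) h2 n

end Pool.Agent.H152.RPx
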