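import Pool.Agent.H152.BKRP1

set_option autoImplicit false

/-! # Project BK (helper979): random products, the estimate for the blocks -/

open Filter Topology Finset Pool.Agent.H979.BK

namespace Pool.Agent.H152.RPx

variable {F : Type} [NormedAddCommGroup F] [NormedSpace ℂ F]

/-- the larger of the slow and the fast part -/
noncomputable def Mx (Q : F →L[ℂ] F) (w : F →L[ℂ] ℂ) : ℝ := max ‖w.comp Q‖ ‖w.comp (1 - Q)‖

/-- the slow part dominates -/
def Al (Q : F →L[ℂ] F) (w : F →L[ℂ] ℂ) : Prop := ‖w.comp (1 - Q)‖ ≤ ‖w.comp Q‖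

/-- the block is good -/
def Good (G : F →L[ℂ] F) (η : ℝ) (w w' : F →L[ℂ] ℂ) : Prop := ‖w' - w.comp G‖ ≤ η * ‖w‖

theorem norm_le_add (Q : F →L[ℂ] F) (w : F →L[ℂ] ℂ) : ‖w‖ ≤ ‖w.comp Q‖ + ‖w.comp (1 - Q)‖ := by
  have h1 : w.comp Q + w.comp (1 - Q) = w := by
    ext x
    simp
  calc ‖w‖ = ‖w.comp Q + w.comp (1 - Q)‖ := by rw [h1]
    _ ≤ ‖w.comp Q‖ + ‖w.comp (1 - Q)‖ := norm_add_le _ _

theorem norm_le_Mx (Q : F →L[ℂ] F) (w : F →L[ℂ] ℂ) : ‖w‖ ≤ 2 * Mx Q w := by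
  have h1 := norm_le_add Q w
  have h2 : ‖w.comp Q‖ ≤ Mx Q w := le_max_left _ _
  have h3 : ‖w.comp (1 - Q)‖ ≤ Mx Q w := le_max_right _ _
  linarith

theorem Mx_le (Q : F →L[ℂ] F) (CQ : ℝ) (h1 : ‖Q‖ ≤ CQ) (h2 : ‖1 - Q‖ ≤ CQ) (w : F →L[ℂ] ℂ) :
    Mx Q w ≤ CQ * ‖w‖ := by
  refine max_le ?_ ?_
  · refine (w.opNorm_comp_le _).trans ?_
    rw [mul_comm]
    exact mul_le_mul_of_nonneg_right h1 (norm_nonneg _)
  · refine (w.opNorm_comp_le _).trans ?_
    rw [mul_comm]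
    exact mul_le_mul_of_nonneg_right h2 (norm_nonneg _)

theorem Mx_al (Q : F →L[ℂ] F) (w : F →L[ℂ] ℂ) (h : Al Q w) : Mx Q w = ‖w.comp Q‖ := max_eq_left h

theorem err (A G : F →L[ℂ] F) (hA : ∀ x, A (G x) = G (A x)) (CQ η : ℝ) (h1 : ‖A‖ ≤ CQ)
    (w w' : F →L[ℂ] ℂ) (h : ‖w' - w.comp G‖ ≤ η * ‖w‖) (hη : 0 ≤ η) :
    ‖w'.comp A - (w.comp A).comp G‖ ≤ CQ * η * ‖w‖ := by
  have h2 : w'.comp A - (w.comp A).comp G = (w' - w.comp G).comp A := by
    rw [dec A G hA w w', add_sub_cancel_left]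
  rw [h2]
  refine (ContinuousLinearMap.opNorm_comp_le _ _).trans ?_
  calc ‖w' - w.comp G‖ * ‖A‖ ≤ (η * ‖w‖) * CQ :=
        mul_le_mul h h1 (norm_nonneg _) (mul_nonneg hη (norm_nonneg _))
    _ = CQ * η * ‖w‖ := by ring

/-- alignment of the slow and fast parts in a good block -/
theorem align (Q G : F →L[ℂ] F) (hQ : ∀ x, Q (G x) = G (Q x)) (CQ η e1 e2 e3 : ℝ)
    (h1 : ‖Q‖ ≤ CQ) (h2 : ‖1 - Q‖ ≤ CQ) (hη : 0 ≤ η) (hη1 : 2 * (CQ * η) ≤ e1 - e2)
    (hη2 : 2 * (CQ * η) ≤ e2 - e3)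
    (hlow : ∀ w : F →L[ℂ] ℂ, e1 * ‖w.comp Q‖ ≤ ‖(w.comp Q).comp G‖)
    (hup : ∀ w : F →L[ℂ] ℂ, ‖(w.comp (1 - Q)).comp G‖ ≤ e3 * ‖w.comp (1 - Q)‖)
    (he3 : 0 ≤ e3) (w w' : F →L[ℂ] ℂ) (h : Good G η w w') :
    (Al Q w → Al Q w' ∧ e2 * ‖w.comp Q‖ ≤ ‖w'.comp Q‖) ∧
      (¬ Al Q w → ‖w'.comp (1 - Q)‖ ≤ e2 * ‖w.comp (1 - Q)‖) := by
  have hCQ : 0 ≤ CQ := (norm_nonneg _).trans h1
  have hQ' : ∀ x, (1 - Q) (G x) = G ((1 - Q) x) := by
    intro x
    simp [hQ]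
  have h3 := err Q G hQ CQ η h1 w w' h hη
  have h4 := err (1 - Q) G hQ' CQ η h2 w w' h hη
  have h5 : ‖(w.comp Q).comp G‖ ≤ ‖w'.comp Q‖ + CQ * η * ‖w‖ := by
    have h6 := norm_sub_norm_le ((w.comp Q).comp G) (w'.comp Q)
    rw [norm_sub_rev] at h6
    linarith
  have h7 : ‖w'.comp (1 - Q)‖ ≤ ‖(w.comp (1 - Q)).comp G‖ + CQ * η * ‖w‖ := by
    have h6 := norm_sub_norm_le (w'.comp (1 - Q)) ((w.comp (1 - Q)).comp G)
    linarith
  have h8 := hlow w
  have h9 := hup w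
  have h10 := norm_le_add Q w
  have hk : 0 ≤ CQ * η := mul_nonneg hCQ hη
  have hX := norm_nonneg (w.comp Q)
  have hY := norm_nonneg (w.comp (1 - Q))
  constructor
  · intro hal
    have hal' : ‖w.comp (1 - Q)‖ ≤ ‖w.comp Q‖ := hal
    have h11 : CQ * η * ‖w‖ ≤ CQ * η * (2 * ‖w.comp Q‖) :=
      mul_le_mul_of_nonneg_left (by linarith) hk
    have h12 : 2 * (CQ * η) * ‖w.comp Q‖ ≤ (e1 - e2) * ‖w.comp Q‖ :=
      mul_le_mul_of_nonneg_right hη1 hX
    have h13 : 2 * (CQ * η) * ‖w.comp Q‖ ≤ (e2 - e3) * ‖w.comp Q‖ :=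
      mul_le_mul_of_nonneg_right hη2 hX
    have h14 : e2 * ‖w.comp Q‖ ≤ ‖w'.comp Q‖ := by nlinarith
    refine ⟨?_, h14⟩
    show ‖w'.comp (1 - Q)‖ ≤ ‖w'.comp Q‖
    have h15 : e3 * ‖w.comp (1 - Q)‖ ≤ e3 * ‖w.comp Q‖ := mul_le_mul_of_nonneg_left hal' he3
    nlinarith
  · intro hnal
    have hal' : ‖w.comp Q‖ < ‖w.comp (1 - Q)‖ := not_le.1 hnal
    have h11 : CQ * η * ‖w‖ ≤ CQ * η * (2 * ‖w.comp (1 - Q)‖) :=
      mul_le_mul_of_nonneg_left (by linarith) hk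
    have h13 : 2 * (CQ * η) * ‖w.comp (1 - Q)‖ ≤ (e2 - e3) * ‖w.comp (1 - Q)‖ :=
      mul_le_mul_of_nonneg_right hη2 hY
    nlinarith

theorem z_norm_le {ι : Type} [Fintype ι] {P : ι → F →L[ℂ] F} {μ : ι → ℝ} {v : F} {z : ℂ}
    (h : Sys P μ v z) : ‖z‖ ≤ 1 := by
  have h1 := norm_UU_le P μ h.norm (fun s => (h.pos s).le) h.sum
  have h2 : ‖z‖ * ‖v‖ ≤ 1 * ‖v‖ := by
    rw [← norm_smul, ← h.eig]
    exact ((UU P μ).le_opNorm v).trans (mul_le_mul_of_nonneg_right h1 (norm_nonneg _))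
  exact le_of_mul_le_mul_right h2 (norm_pos_iff.2 h.ne)

open Classical in
theorem core (h2 : S_AZ) (h3 : S_WORD) (h4 : S_HIT) (h5 : S_BOOK) [FiniteDimensional ℂ F]
    {ι : Type} [Fintype ι] (P : ι → F →L[ℂ] F) (μ : ι → ℝ) (v : F) (z : ℂ) (hsys : Sys P μ v z)
    (T ε : ℝ) (hT : 1 ≤ T) (hε : 0 < ε) (Q : F →L[ℂ] F)
    (hQ : ∀ x, Q (GG (UU P μ) T x) = GG (UU P μ) T (Q x))
    (hlow : ∀ w : F →L[ℂ] ℂ, Real.exp (-(1 - z.re + ε) * T) * ‖w.comp Q‖ ≤
      ‖(w.comp Q).comp (GG (UU P μ) T)‖)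
    (hup : ∀ w : F →L[ℂ] ℂ, ‖(w.comp (1 - Q)).comp (GG (UU P μ) T)‖ ≤
      Real.exp (-(1 - z.re + 3 * ε) * T) * ‖w.comp (1 - Q)‖)
    (e : ℝ) (he : 0 < e) : ∃ δ1 : ℝ, 0 < δ1 ∧ ∀ δ : ℝ, 0 < δ → δ < δ1 →
      ∀ w : F →L[ℂ] ℂ, Al Q w → ∀ M : ℕ, (KK P μ δ)^[⌊T / δ⌋₊ * M]
        (fun y => if Real.log (Mx Q y) < Real.log (Mx Q w) - (1 - z.re + 3 * ε) * T * M then 1 else 0) w
          ≤ e := by
  have hT0 : 0 < T := by linarith
  have hz := z_norm_le hsys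
  have hzr : |z.re| ≤ 1 := (Complex.abs_re_le_norm z).trans hz
  rw [abs_le] at hzr
  set κ0 : ℝ := 1 - z.re with hκ0
  have hκ : 0 ≤ κ0 := by linarith
  have hκ2 : κ0 ≤ 2 := by linarith
  set G := GG (UU P μ) T with hG
  set CQ : ℝ := 1 + ‖Q‖ + ‖1 - Q‖ with hCQ
  have hCQ1 : 1 ≤ CQ := by
    have := norm_nonneg Q
    have := norm_nonneg (1 - Q)
    linarith
  have hQn : ‖Q‖ ≤ CQ := by
    have := norm_nonneg (1 - Q)
    linarith
  have hQn' : ‖1 - Q‖ ≤ CQ := by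
    have := norm_nonneg Q
    linarith
  set e1 : ℝ := Real.exp (-(κ0 + ε) * T) with he1
  set e2 : ℝ := Real.exp (-(κ0 + 2 * ε) * T) with he2
  set e3 : ℝ := Real.exp (-(κ0 + 3 * ε) * T) with he3
  have hεT : 0 < ε * T := mul_pos hε hT0
  have h12 : e2 < e1 := Real.exp_lt_exp.2 (by linarith)
  have h23 : e3 < e2 := Real.exp_lt_exp.2 (by linarith)
  have he1p : 0 < e1 := Real.exp_pos _
  have he2p : 0 < e2 := Real.exp_pos _
  have he3p : 0 < e3 := Real.exp_pos _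
  set η : ℝ := min (e1 - e2) (e2 - e3) / (2 * CQ) with hη
  have hηp : 0 < η := div_pos (lt_min (by linarith) (by linarith)) (by linarith)
  have hη0 : 2 * (CQ * η) = min (e1 - e2) (e2 - e3) := by
    rw [hη]
    field_simp
  have hal := align Q G hQ CQ η e1 e2 e3 hQn hQn' hηp.le (by rw [hη0]; exact min_le_left _ _)
    (by rw [hη0]; exact min_le_right _ _) hlow hup he3p.le
  obtain ⟨C, c, δA, hC, hc, hδA, hAZ⟩ := h2 F ι P μ hsys.norm (fun s => (hsys.pos s).le) hsys.sum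
    T η hT0 hηp
  obtain ⟨D, cW, hcW, hW⟩ := h3 F ι P μ v z hsys
  set V : ℝ := ‖v‖ with hV
  have hVp : 0 < V := norm_pos_iff.2 hsys.ne
  set N1 : ℕ := ⌈(κ0 + ε) * (D + 1) / ε⌉₊ with hN1
  set N : ℕ := D + N1 with hN
  set g0 : ℝ := cW / V * e1 / 4 with hg0
  have hg0p : 0 < g0 := by positivity
  set a0 : ℝ := min 1 g0 with ha0
  have ha0p : 0 < a0 := lt_min one_pos hg0p
  set c7 : ℝ := (D + 1) / (ε * T) + 1 with hc7
  have hc7p : 0 < c7 := by positivity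
  set K1 : ℝ := 4 * T + Real.log (2 * CQ) with hK1
  have hK1p : 0 ≤ K1 := by
    have := Real.log_nonneg (by linarith : (1 : ℝ) ≤ 2 * CQ)
    linarith
  set ζ : ℝ := ε * T with hζ
  have hζp : 0 < ζ := by positivity
  set b1 : ℝ := e * ζ * a0 / (3 * (K1 + 1)) with hb1
  have hb1p : 0 < b1 := by positivity
  set b : ℝ := min g0 b1 / (c7 * C) with hb
  have hbp : 0 < b := div_pos (lt_min hg0p hb1p) (by positivity)
  obtain ⟨δC, hδC, htail⟩ := tail c b (N + 1) hc hbp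
  refine ⟨min (min (1 / 4) δA) (min (min (ε / 8) (T / (D + 1))) (min (cW / (8 * CQ * V)) δC)),
    by positivity, fun δ hδ hδ1 => ?_⟩
  simp only [lt_min_iff] at hδ1
  obtain ⟨⟨hδ4, hδA'⟩, ⟨hδε, hδD⟩, hδW, hδC'⟩ := hδ1
  intro w hw M
  set m : ℕ := ⌊T / δ⌋₊ with hm
  have hmT : m * δ ≤ T := by
    have h6 : (m : ℝ) ≤ T / δ := Nat.floor_le (by positivity)
    rwa [le_div_iff₀ hδ] at h6
  have hDT : (D : ℝ) + 1 ≤ T / δ := by
    rw [le_div_iff₀ hδ]
    have h6 := (lt_div_iff₀ (by positivity : (0 : ℝ) < D + 1)).1 hδD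
    linarith
  have hDm : D + 1 ≤ m := Nat.le_floor (by push_cast; exact hDT)
  -- the number of blocks
  set lg : ℝ := Real.log (1 / δ) with hlg
  have hlg0 : 0 ≤ lg := Real.log_nonneg (by rw [le_div_iff₀ hδ]; linarith)
  have hlgδ : lg * δ ≤ 1 := by
    have h6 : lg ≤ 1 / δ := (Real.log_le_sub_one_of_pos (by positivity)).trans (by linarith)
    rwa [le_div_iff₀ hδ] at h6
  have hexplg : Real.exp (-lg) = δ := by
    rw [hlg, one_div, Real.log_inv, neg_neg, Real.exp_log hδ]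
  set ℓ : ℝ := (D + 1) * lg / (ε * T) with hℓ
  have hℓ0 : 0 ≤ ℓ := by positivity
  set L : ℕ := ⌊ℓ⌋₊ + 1 with hL
  have hL1 : ℓ ≤ L := by
    rw [hL]
    push_cast
    exact (Nat.lt_floor_add_one ℓ).le
  have hL2 : (L : ℝ) ≤ ℓ + 1 := by
    rw [hL]
    push_cast
    have h6 := Nat.floor_le hℓ0
    linarith
  have hLδ : L * δ ≤ c7 := by
    have h6 : ℓ * δ ≤ (D + 1) / (ε * T) := by
      have h7 : ℓ * δ = (D + 1) / (ε * T) * (lg * δ) := by
        rw [hℓ]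
        ring
      rw [h7]
      exact mul_le_of_le_one_right (by positivity) hlgδ
    calc L * δ ≤ (ℓ + 1) * δ := mul_le_mul_of_nonneg_right hL2 hδ.le
      _ = ℓ * δ + δ := by ring
      _ ≤ c7 := by
        rw [hc7]
        linarith
  set q : ℝ := C * Real.exp (-c / δ) with hq
  have hq0 : 0 ≤ q := by positivity
  have hLq : L * q ≤ min g0 b1 * δ ^ N := by
    have h6 := htail δ hδ hδC'
    calc L * q = L * C * Real.exp (-c / δ) := by
          rw [hq]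
          ring
      _ ≤ L * C * (b * δ ^ (N + 1)) := mul_le_mul_of_nonneg_left h6 (by positivity)
      _ = (L * δ) * (C * b * δ ^ N) := by ring
      _ ≤ c7 * (C * b * δ ^ N) := mul_le_mul_of_nonneg_right hLδ (by positivity)
      _ = min g0 b1 * δ ^ N := by
        rw [hb]
        field_simp
  have hδN : 0 < δ ^ N := by positivity
  have hLq1 : L * q ≤ g0 * δ ^ N :=
    hLq.trans (mul_le_mul_of_nonneg_right (min_le_left _ _) hδN.le)
  have hLq2 : L * q ≤ b1 * δ ^ N :=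
    hLq.trans (mul_le_mul_of_nonneg_right (min_le_right _ _) hδN.le)
  -- the blocks
  obtain ⟨I', hI', p', φ', hp', hs', hblk, hlo, hhi⟩ := rp_block (X := F →L[ℂ] ℂ) (p := μ)
    (φ := fun s w => w.comp (AA P δ s)) (fun w => ‖w‖) (1 - 2 * δ) (by linarith)
    (fun s => (hsys.pos s).le) hsys.sum (fun s w => AA_ge P hsys.norm δ hδ.le (by linarith) s w)
    (fun s w => AA_le P hsys.norm δ hδ.le (by linarith) s w) m
  have hit : (KK P μ δ)^[m] = MK p' φ' := by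
    funext f
    exact hblk f
  have hgood : ∀ x, ∑ i, p' i * (if Good G η x (φ' i x) then (0 : ℝ) else 1) ≤ q := by
    intro x
    have h6 := hAZ δ hδ hδA' x
    rw [← hm, hit] at h6
    refine le_trans (le_of_eq ?_) h6
    unfold MK
    refine Finset.sum_congr rfl (fun i _ => ?_)
    congr 1
    show (if Good G η x (φ' i x) then (0 : ℝ) else 1) =
      if η * ‖x‖ < ‖φ' i x - x.comp (GG (UU P μ) T)‖ then 1 else 0
    by_cases hg : Good G η x (φ' i x)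
    · have hg' : ¬ (η * ‖x‖ < ‖φ' i x - x.comp (GG (UU P μ) T)‖) := not_lt.2 hg
      rw [if_pos hg, if_neg hg']
    · have hg' : η * ‖x‖ < ‖φ' i x - x.comp (GG (UU P μ) T)‖ := not_le.1 hg
      rw [if_neg hg, if_pos hg']
  -- the bound for the hitting probability
  have hr : 1 - δ * κ0 ≤ ‖1 - (δ : ℂ) * (1 - z)‖ := by
    have h6 : (1 - (δ : ℂ) * (1 - z)).re = 1 - δ * κ0 := by
      simp [hκ0]
    rw [← h6]
    exact Complex.re_le_norm _
  have hδκ : δ * κ0 ≤ 1 / 2 := by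
    have h6 : δ * κ0 ≤ 1 / 4 * 2 := mul_le_mul hδ4.le hκ2 hκ (by norm_num)
    linarith
  have hδκ0 : 0 ≤ δ * κ0 := mul_nonneg hδ.le hκ
  have hr2 : e1 ^ L ≤ ‖1 - (δ : ℂ) * (1 - z)‖ ^ (m * L) := by
    have h6 := one_sub_pow (δ * κ0) hδκ0 hδκ (m * L)
    have h7 : (1 - δ * κ0) ^ (m * L) ≤ ‖1 - (δ : ℂ) * (1 - z)‖ ^ (m * L) :=
      pow_le_pow_left₀ (by linarith) hr _
    refine le_trans ?_ (h6.trans h7)
    rw [he1, ← Real.exp_nat_mul]
    refine Real.exp_le_exp.2 ?_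
    push_cast
    have h8 : δ * κ0 + 2 * (δ * κ0) ^ 2 ≤ δ * (κ0 + ε) := by
      have h9 : 2 * (δ * (κ0 * κ0)) ≤ ε := by
        have h10 : κ0 * κ0 ≤ 2 * 2 := mul_le_mul hκ2 hκ2 hκ (by norm_num)
        have h11 : δ * (κ0 * κ0) ≤ δ * (2 * 2) := mul_le_mul_of_nonneg_left h10 hδ.le
        linarith
      have h10 : δ * (2 * (δ * (κ0 * κ0))) ≤ δ * ε := mul_le_mul_of_nonneg_left h9 hδ.le
      linarith
    have h9 : (m : ℝ) * L * (δ * κ0 + 2 * (δ * κ0) ^ 2) ≤ L * ((κ0 + ε) * T) := by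
      calc (m : ℝ) * L * (δ * κ0 + 2 * (δ * κ0) ^ 2) ≤ (m : ℝ) * L * (δ * (κ0 + ε)) :=
            mul_le_mul_of_nonneg_left h8 (by positivity)
        _ = L * ((κ0 + ε) * (m * δ)) := by ring
        _ ≤ L * ((κ0 + ε) * T) := mul_le_mul_of_nonneg_left
            (mul_le_mul_of_nonneg_left hmT (by linarith)) (by positivity)
    linarith
  have he2L : e2 ^ L ≤ e1 ^ L * δ ^ (D + 1) := by
    have h6 : δ ^ (D + 1) = Real.exp (-((D + 1) * lg)) := by
      rw [← hexplg, ← Real.exp_nat_mul]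
      congr 1
      push_cast
      ring
    rw [h6, he1, he2, ← Real.exp_nat_mul, ← Real.exp_nat_mul, ← Real.exp_add]
    refine Real.exp_le_exp.2 ?_
    have h7 : (D + 1) * lg ≤ L * (ε * T) := by
      rw [hℓ, div_le_iff₀ (by positivity)] at hL1
      exact hL1
    linarith
  have he1L : e1 * δ ^ N1 ≤ e1 ^ L := by
    have h6 : δ ^ N1 = Real.exp (-(N1 * lg)) := by
      rw [← hexplg, ← Real.exp_nat_mul]
      congr 1
      ring
    rw [h6, he1, ← Real.exp_nat_mul, ← Real.exp_add]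
    refine Real.exp_le_exp.2 ?_
    have h7 : (κ0 + ε) * (D + 1) / ε ≤ N1 := Nat.le_ceil _
    have h8 : (κ0 + ε) * T * ℓ ≤ N1 * lg := by
      have h9 : (κ0 + ε) * T * ℓ = ((κ0 + ε) * (D + 1) / ε) * lg := by
        rw [hℓ]
        field_simp
      rw [h9]
      exact mul_le_mul_of_nonneg_right h7 hlg0
    have h9 : (κ0 + ε) * T * L ≤ (κ0 + ε) * T * (ℓ + 1) :=
      mul_le_mul_of_nonneg_left hL2 (by positivity)
    linarith
  have hhit : ∀ x : F →L[ℂ] ℂ, a0 * δ ^ N ≤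
      (MK p' φ')^[L] (fun y => if Al Q y then (1 : ℝ) else 0) x := by
    intro x
    by_cases hx : x = 0
    · have h6 := rp_mono (p := p') (φ := φ') hp' (fun y => y = 0) (fun i y hy => by
        have h7 := hhi i y
        rw [hy, norm_zero] at h7
        rw [hy]
        exact norm_le_zero_iff.1 h7) L (fun _ => (1 : ℝ)) (fun y => if Al Q y then (1 : ℝ) else 0)
        (fun y hy => by
          have h7 : Al Q y := by
            show ‖y.comp (1 - Q)‖ ≤ ‖y.comp Q‖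
            rw [hy, ContinuousLinearMap.zero_comp, ContinuousLinearMap.zero_comp]
          rw [if_pos h7]) x hx
      rw [rp_const hs'] at h6
      refine le_trans ?_ h6
      have h7 : a0 ≤ 1 := min_le_left _ _
      have h8 : δ ^ N ≤ 1 := pow_le_one₀ hδ.le (by linarith)
      exact mul_le_one₀ h7 hδN.le h8
    · have hxn : 0 < ‖x‖ := norm_pos_iff.2 hx
      have h6 := h4 (F →L[ℂ] ℂ) I' p' φ' (Al Q) (fun i x => Good G η x (φ' i x))
        (fun x => ‖x.comp (1 - Q)‖) (fun x => ‖x‖) (fun x => ‖x v‖) q e2 V hp' hs' hq0 he2p.le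
        hVp.le (fun x => norm_nonneg _) (fun x => norm_nonneg _) hgood
        (fun x i hx hg => ((hal x (φ' i x) hg).1 hx).1) (fun x i => hhi i x)
        (fun x hx => by
          have h7 := norm_le_add Q x
          have h8 : ‖x.comp Q‖ < ‖x.comp (1 - Q)‖ := not_le.1 hx
          linarith)
        (fun x i hx hg => (hal x (φ' i x) hg).2 hx)
        (fun x => by
          rw [mul_comm]
          exact x.le_opNorm v) L x
      have h7 := hW δ hδ hδ4.le (m * L) ((Nat.le_of_succ_le hDm).trans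
        (Nat.le_mul_of_pos_right m (Nat.succ_pos _))) x
      rw [Function.iterate_mul, hit] at h7
      have h8 := h7.trans h6
      set A : ℝ := (MK p' φ')^[L] (fun y => if Al Q y then (1 : ℝ) else 0) x with hA
      have h9 : ‖x.comp (1 - Q)‖ ≤ CQ * ‖x‖ := by
        refine (x.opNorm_comp_le _).trans ?_
        rw [mul_comm]
        exact mul_le_mul_of_nonneg_right hQn' hxn.le
      have h10 : cW * δ ^ D * e1 ^ L * ‖x‖ ≤ V * ‖x‖ * (A + L * q) +
          2 * V * (e1 ^ L * δ ^ (D + 1)) * (CQ * ‖x‖) := by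
        have h11 : cW * δ ^ D * e1 ^ L * ‖x‖ ≤
            cW * δ ^ D * ‖1 - (δ : ℂ) * (1 - z)‖ ^ (m * L) * ‖x‖ :=
          mul_le_mul_of_nonneg_right (mul_le_mul_of_nonneg_left hr2 (by positivity)) hxn.le
        have h12 : 2 * V * e2 ^ L * ‖x.comp (1 - Q)‖ ≤
            2 * V * (e1 ^ L * δ ^ (D + 1)) * (CQ * ‖x‖) :=
          mul_le_mul (mul_le_mul_of_nonneg_left he2L (by positivity)) h9 (norm_nonneg _)
            (by positivity)
        linarith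
      have h11 : (cW / V - 2 * CQ * δ) * (e1 ^ L * δ ^ D) ≤ A + L * q := by
        have h12 : (cW / V - 2 * CQ * δ) * (e1 ^ L * δ ^ D) * (V * ‖x‖) ≤
            (A + L * q) * (V * ‖x‖) := by
          have h13 : (cW / V - 2 * CQ * δ) * (e1 ^ L * δ ^ D) * (V * ‖x‖) =
              cW * δ ^ D * e1 ^ L * ‖x‖ - 2 * V * (e1 ^ L * δ ^ (D + 1)) * (CQ * ‖x‖) := by
            rw [pow_succ δ D]
            field_simp
          rw [h13]
          linarith
        exact le_of_mul_le_mul_right h12 (by positivity)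
      have h12 : 3 * g0 * δ ^ N ≤ A + L * q := by
        refine le_trans ?_ h11
        have h13 : 3 * (cW / V / 4) ≤ cW / V - 2 * CQ * δ := by
          have h14 : 2 * CQ * δ ≤ cW / V / 4 := by
            rw [lt_div_iff₀ (by positivity)] at hδW
            rw [div_div, le_div_iff₀ (by positivity)]
            linarith
          linarith
        have h14 : e1 * δ ^ N ≤ e1 ^ L * δ ^ D := by
          rw [hN, pow_add]
          calc e1 * (δ ^ D * δ ^ N1) = (e1 * δ ^ N1) * δ ^ D := by ring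
            _ ≤ e1 ^ L * δ ^ D := mul_le_mul_of_nonneg_right he1L (by positivity)
        calc 3 * g0 * δ ^ N = 3 * (cW / V / 4) * (e1 * δ ^ N) := by
              rw [hg0]
              ring
          _ ≤ (cW / V - 2 * CQ * δ) * (e1 ^ L * δ ^ D) :=
              mul_le_mul h13 h14 (by positivity) (le_trans (by positivity) h13)
      have h13 : a0 * δ ^ N ≤ g0 * δ ^ N :=
        mul_le_mul_of_nonneg_right (min_le_right _ _) hδN.le
      have h14 := mul_pos hg0p hδN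
      linarith
  -- bookkeeping
  have hz0 : ∀ x : F →L[ℂ] ℂ, Mx Q x = 0 → ∀ i, Mx Q (φ' i x) = 0 := by
    intro x hx i
    have h6 := norm_le_Mx Q x
    have h7 := hhi i x
    have h8 : ‖φ' i x‖ ≤ 0 := by linarith
    have h9 := Mx_le Q CQ hQn hQn' (φ' i x)
    have h10 : 0 ≤ Mx Q (φ' i x) := le_max_of_le_left (norm_nonneg _)
    rw [le_antisymm h8 (norm_nonneg _), mul_zero] at h9
    exact le_antisymm h9 h10
  have hMx0 : ∀ x : F →L[ℂ] ℂ, 0 ≤ Mx Q x := fun x => le_max_of_le_left (norm_nonneg _)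
  have hstep : ∀ (x : F →L[ℂ] ℂ) (i : I'), Al Q x → Good G η x (φ' i x) →
      Al Q (φ' i x) ∧ Real.log (Mx Q x) - (κ0 + 2 * ε) * T ≤ Real.log (Mx Q (φ' i x)) := by
    intro x i hx hg
    have h6 := (hal x (φ' i x) hg).1 hx
    refine ⟨h6.1, ?_⟩
    by_cases h7 : Mx Q x = 0
    · rw [h7, hz0 x h7 i, Real.log_zero]
      have h8 : 0 ≤ (κ0 + 2 * ε) * T := by positivity
      linarith
    · have h8 : 0 < Mx Q x := lt_of_le_of_ne (hMx0 x) (Ne.symm h7)
      have h9 : e2 * Mx Q x ≤ Mx Q (φ' i x) := by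
        rw [Mx_al Q x hx, Mx_al Q (φ' i x) h6.1]
        exact h6.2
      have h10 := Real.log_le_log (mul_pos he2p h8) h9
      rw [Real.log_mul he2p.ne' h7, he2, Real.log_exp] at h10
      linarith
  have hK : ∀ (x : F →L[ℂ] ℂ) (i : I'),
      Real.log (Mx Q x) - K1 ≤ Real.log (Mx Q (φ' i x)) := by
    intro x i
    by_cases h7 : Mx Q x = 0
    · rw [h7, hz0 x h7 i, Real.log_zero]
      linarith
    · have h8 : 0 < Mx Q x := lt_of_le_of_ne (hMx0 x) (Ne.symm h7)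
      have h9 : Real.exp (-(4 * T)) ≤ (1 - 2 * δ) ^ m := by
        refine le_trans ?_ (one_sub_pow (2 * δ) (by positivity) (by linarith) m)
        refine Real.exp_le_exp.2 ?_
        have h10 : (m : ℝ) * (2 * δ + 2 * (2 * δ) ^ 2) ≤ m * (4 * δ) :=
          mul_le_mul_of_nonneg_left (by
            have h11 := mul_le_mul_of_nonneg_left hδ4.le hδ.le
            linarith) (Nat.cast_nonneg m)
        linarith
      have h10 : Real.exp (-(4 * T)) * ‖x‖ ≤ ‖φ' i x‖ :=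
        (mul_le_mul_of_nonneg_right h9 (norm_nonneg _)).trans (hlo i x)
      have h11 := norm_le_Mx Q (φ' i x)
      have h12 := Mx_le Q CQ hQn hQn' x
      have hE : 0 < Real.exp (-(4 * T)) := Real.exp_pos _
      have h13 : Real.exp (-(4 * T)) * Mx Q x ≤ 2 * CQ * Mx Q (φ' i x) := by
        calc Real.exp (-(4 * T)) * Mx Q x ≤ Real.exp (-(4 * T)) * (CQ * ‖x‖) :=
              mul_le_mul_of_nonneg_left h12 hE.le
          _ = CQ * (Real.exp (-(4 * T)) * ‖x‖) := by ring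
          _ ≤ CQ * (2 * Mx Q (φ' i x)) :=
              mul_le_mul_of_nonneg_left (h10.trans h11) (by linarith)
          _ = 2 * CQ * Mx Q (φ' i x) := by ring
      have h14 : 0 < Mx Q (φ' i x) := by
        have h15 : 0 < 2 * CQ * Mx Q (φ' i x) := lt_of_lt_of_le (mul_pos hE h8) h13
        exact (mul_pos_iff_of_pos_left (by positivity : 0 < 2 * CQ)).1 h15
      have h15 := Real.log_le_log (mul_pos hE h8) h13
      rw [Real.log_mul hE.ne' h7, Real.log_exp, Real.log_mul (by positivity) h14.ne'] at h15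
      rw [hK1]
      linarith
  have hfin := h5 (F →L[ℂ] ℂ) I' p' φ' (Al Q) (fun i x => Good G η x (φ' i x))
    (fun x => Real.log (Mx Q x)) q (a0 * δ ^ N) ((κ0 + 2 * ε) * T) K1 L hp' hs' hq0 (by positivity)
    (by
      have h7 : a0 ≤ 1 := min_le_left _ _
      have h8 : δ ^ N ≤ 1 := pow_le_one₀ hδ.le (by linarith)
      exact mul_le_one₀ h7 hδN.le h8)
    (by positivity) hK1p (by rw [hL]; exact Nat.le_add_left _ _) hgood hstep hK hhit w hw M ζ hζp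
  rw [Function.iterate_mul, hit]
  have hκζ : (κ0 + 3 * ε) * T = (κ0 + 2 * ε) * T + ζ := by
    rw [hζ]
    ring
  rw [hκζ]
  refine le_trans hfin ?_
  rw [div_le_iff₀ (by positivity)]
  have h6 : 3 * K1 * (L * q) ≤ 3 * K1 * (b1 * δ ^ N) :=
    mul_le_mul_of_nonneg_left hLq2 (by positivity)
  have h7 : 3 * K1 * b1 ≤ e * ζ * a0 := by
    rw [hb1, mul_div_assoc', div_le_iff₀ (by positivity)]
    have h8 : 0 < e * ζ * a0 := by positivity
    linarith
  calc 3 * K1 * L * q = 3 * K1 * (L * q) := by ring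
    _ ≤ 3 * K1 * (b1 * δ ^ N) := h6
    _ = 3 * K1 * b1 * δ ^ N := by ring
    _ ≤ e * ζ * a0 * δ ^ N := mul_le_mul_of_nonneg_right h7 hδN.le
    _ = e * (a0 * δ ^ N * ζ) := by ring

end Pool.Agent.H152.RPx
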