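import Pool.Agent.H979.FC.Stm

set_option autoImplicit false
set_option linter.unusedVariables false

open Finset

namespace Pool.Agent.H152

open Pool.Agent.H979.FR Pool.Agent.H979.FC

/-- the chains of length `n` started at `x`: at most `d ^ n` -/
theorem chains_from {V : Type} [DecidableEq V] (G : SimpleGraph V) [G.LocallyFinite] (d : ℕ)
    (hd : ∀ v, G.degree v = d) (n : ℕ) : ∀ x : V, ∃ F : Finset (List V),
      (∀ l : List V, List.IsChain G.Adj (x :: l) → l.length = n → l ∈ F) ∧ F.card ≤ d ^ n := by
  induction n with
  | zero =>
    intro x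
    refine ⟨{[]}, ?_, by simp⟩
    intro l _ hl
    rw [Finset.mem_singleton]
    exact List.length_eq_zero_iff.mp hl
  | succ n ih =>
    intro x
    choose F hF hc using ih
    refine ⟨(G.neighborFinset x).biUnion (fun y => (F y).image (fun l => y :: l)), ?_, ?_⟩
    · intro l hl hlen
      cases l with
      | nil => simp at hlen
      | cons y l =>
        rw [Finset.mem_biUnion]
        rw [List.isChain_cons_cons] at hl
        refine ⟨y, ?_, ?_⟩
        · rw [SimpleGraph.mem_neighborFinset]
          exact hl.1
        · rw [Finset.mem_image]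
          refine ⟨l, hF y l hl.2 ?_, rfl⟩
          simpa using hlen
    · calc ((G.neighborFinset x).biUnion (fun y => (F y).image (fun l => y :: l))).card
          ≤ ∑ y ∈ G.neighborFinset x, ((F y).image (fun l => y :: l)).card := Finset.card_biUnion_le
        _ ≤ ∑ y ∈ G.neighborFinset x, d ^ n :=
            Finset.sum_le_sum (fun y _ => Finset.card_image_le.trans (hc y))
        _ = d ^ (n + 1) := by
            rw [Finset.sum_const, SimpleGraph.card_neighborFinset_eq_degree, hd x, smul_eq_mul,
              pow_succ, mul_comm]

theorem chains_through {V : Type} [DecidableEq V] (G : SimpleGraph V) [G.LocallyFinite] (d : ℕ)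
    (hd : ∀ v, G.degree v = d) (i : V × List V) (k : ℕ) : ∃ F : Finset (V × List V),
      (∀ p : V × List V, List.IsChain G.Adj (p.1 :: p.2) → p.2.length = k → i ∈ steps p.1 p.2 →
        p ∈ F) ∧ F.card ≤ k * d ^ (k - 1) := by
  induction k with
  | zero =>
    refine ⟨∅, ?_, by simp⟩
    rintro ⟨x, l⟩ _ hlen hi
    have h0 : l = [] := List.length_eq_zero_iff.mp hlen
    subst h0
    simp [steps] at hi
  | succ k ih =>
    obtain ⟨F, hF, hc⟩ := ih
    -- the tails of the chains which start with the step `i`
    have hT : ∃ T : Finset (V × List V), (∀ (x y : V) (l : List V),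
        List.IsChain G.Adj (x :: y :: l) → l.length = k → i = (x, [y]) → (x, y :: l) ∈ T) ∧
        T.card ≤ d ^ k := by
      by_cases h : ∃ x y, i = (x, [y])
      · obtain ⟨x, y, hi⟩ := h
        obtain ⟨C, hC, hCc⟩ := chains_from G d hd k y
        refine ⟨C.image (fun l => (x, y :: l)), ?_, Finset.card_image_le.trans hCc⟩
        intro x' y' l hl hlen hi'
        rw [hi] at hi'
        simp only [Prod.mk.injEq, List.cons.injEq, and_true] at hi'
        obtain ⟨h1, h2⟩ := hi'
        subst h1
        subst h2
        rw [Finset.mem_image]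
        rw [List.isChain_cons_cons] at hl
        exact ⟨l, hC l hl.2 hlen, rfl⟩
      · refine ⟨∅, ?_, by simp⟩
        intro x y l _ _ hi
        exact absurd ⟨x, y, hi⟩ h
    obtain ⟨T, hT, hTc⟩ := hT
    refine ⟨T ∪ F.biUnion (fun q => (G.neighborFinset q.1).image (fun x => (x, q.1 :: q.2))),
      ?_, ?_⟩
    · rintro ⟨x, l⟩ hl hlen hi
      cases l with
      | nil => simp at hlen
      | cons y l =>
        simp only at hl hlen hi
        have hlen' : l.length = k := by simpa using hlen
        have hi2 : i = (x, [y]) ∨ i ∈ steps y l := by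
          simpa [steps] using hi
        rw [Finset.mem_union]
        rcases hi2 with hi2 | hi2
        · exact Or.inl (hT x y l hl hlen' hi2)
        · right
          rw [Finset.mem_biUnion]
          have hl' := hl
          rw [List.isChain_cons_cons] at hl'
          refine ⟨(y, l), hF (y, l) hl'.2 hlen' hi2, ?_⟩
          rw [Finset.mem_image]
          refine ⟨x, ?_, rfl⟩
          rw [SimpleGraph.mem_neighborFinset]
          exact hl'.1.symm
    · have h1 : (F.biUnion (fun q => (G.neighborFinset q.1).image
          (fun x => (x, q.1 :: q.2)))).card ≤ k * d ^ (k - 1) * d := by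
        calc (F.biUnion (fun q => (G.neighborFinset q.1).image (fun x => (x, q.1 :: q.2)))).card
            ≤ ∑ q ∈ F, ((G.neighborFinset q.1).image (fun x => (x, q.1 :: q.2))).card :=
              Finset.card_biUnion_le
          _ ≤ ∑ q ∈ F, d := by
              refine Finset.sum_le_sum (fun q _ => Finset.card_image_le.trans ?_)
              rw [SimpleGraph.card_neighborFinset_eq_degree, hd]
          _ = F.card * d := by rw [Finset.sum_const, smul_eq_mul]
          _ ≤ k * d ^ (k - 1) * d := Nat.mul_le_mul_right _ hc
      have h2 : k * d ^ (k - 1) * d ≤ k * d ^ k := by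
        rcases Nat.eq_zero_or_pos k with hk | hk
        · subst hk
          simp
        · rw [mul_assoc, ← pow_succ, Nat.sub_add_cancel hk]
      calc (T ∪ F.biUnion (fun q => (G.neighborFinset q.1).image (fun x => (x, q.1 :: q.2)))).card
          ≤ T.card + (F.biUnion (fun q => (G.neighborFinset q.1).image
              (fun x => (x, q.1 :: q.2)))).card := Finset.card_union_le _ _
        _ ≤ d ^ k + k * d ^ k := Nat.add_le_add hTc (h1.trans h2)
        _ = (k + 1) * d ^ (k + 1 - 1) := by
            rw [Nat.add_sub_cancel]
            ring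

theorem fc_pcnt : S_PCNT := by
  intro V _ _ G _ d _ hd k _ i
  obtain ⟨F, hF, hc⟩ := chains_through G d hd i k
  calc {p : V × List V | List.IsChain G.Adj (p.1 :: p.2) ∧ p.2.length = k ∧
        i ∈ steps p.1 p.2}.encard
      ≤ (F : Set (V × List V)).encard := by
        refine Set.encard_le_encard ?_
        rintro p ⟨h1, h2, h3⟩
        exact hF p h1 h2 h3
    _ = (F.card : ℕ∞) := Set.encard_coe_eq_coe_finsetCard F
    _ ≤ ((k * d ^ (k - 1) : ℕ) : ℕ∞) := by exact_mod_cast hc

end Pool.Agent.H152
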