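import Mathlib
import Pool.Agent.H703.TF16
import Pool.Agent.H770.GS.TK

/-! Numerical moments (S_TK8), after Pool.Agent.H703.TF16. -/

set_option autoImplicit false

open MeasureTheory Set intervalIntegral Filter Topology

namespace Pool.Agent.H152.TK8

open Pool.Agent.H703.TF16

/-- the function `(sin τ - τ cos τ)²` -/
noncomputable def kq (τ : ℝ) : ℝ := (Real.sin τ - τ * Real.cos τ) ^ 2

/-- its moments -/
noncomputable def K (n : ℕ) : ℝ := ∫ τ in (0:ℝ)..Real.pi, kq τ * τ ^ n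

theorem K_eq (n : ℕ) : K n = Real.pi ^ (n + 1) * (1 / (2 * ((n : ℝ) + 1)) + 1 / 2 +
    ((n : ℝ) + 2) / 8) + Real.pi ^ (n + 3) / (2 * ((n : ℝ) + 3)) -
    C n * (1 / 2 + ((n : ℝ) + 1) / 2 + ((n : ℝ) + 2) * ((n : ℝ) + 1) / 8) := by
  have e : ∀ τ : ℝ, kq τ * τ ^ n = 1 / 2 * τ ^ n - 1 / 2 * (τ ^ n * Real.cos (2 * τ)) -
      τ ^ (n + 1) * Real.sin (2 * τ) + 1 / 2 * τ ^ (n + 2) +
      1 / 2 * (τ ^ (n + 2) * Real.cos (2 * τ)) := by
    intro τ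
    unfold kq
    rw [Real.cos_two_mul, Real.sin_two_mul, pow_succ, pow_succ]
    have := Real.sin_sq_add_cos_sq τ
    linear_combination τ ^ n * this
  have h0 : K n = 1 / 2 * (∫ τ in (0:ℝ)..Real.pi, τ ^ n) - 1 / 2 * C n - D (n + 1) +
      1 / 2 * (∫ τ in (0:ℝ)..Real.pi, τ ^ (n + 2)) + 1 / 2 * C (n + 2) := by
    unfold K C D
    simp only [e]
    rw [integral_add (ii (by fun_prop)) (ii (by fun_prop)),
      integral_add (ii (by fun_prop)) (ii (by fun_prop)),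
      integral_sub (ii (by fun_prop)) (ii (by fun_prop)),
      integral_sub (ii (by fun_prop)) (ii (by fun_prop)),
      intervalIntegral.integral_const_mul, intervalIntegral.integral_const_mul,
      intervalIntegral.integral_const_mul, intervalIntegral.integral_const_mul]
  rw [h0, integral_pow, integral_pow, D_succ n, C_rec n]
  have h2 : ((n : ℝ) + 1) ≠ 0 := by positivity
  have h3 : ((n : ℝ) + 3) ≠ 0 := by positivity
  have h4 : (((n + 2 : ℕ) : ℝ) + 1) = (n : ℝ) + 3 := by push_cast; ring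
  rw [h4]
  simp only [ne_eq, Nat.succ_ne_zero, not_false_eq_true, zero_pow, sub_zero]
  field_simp
  ring

/-! ### The function `hq` -/

theorem hq_eq (τ : ℝ) : Pool.Agent.H770.GS.hq τ = 3 * (Real.sinc τ - Real.cos τ) ^ 2 := by
  unfold Pool.Agent.H770.GS.hq
  by_cases h : τ = 0
  · subst h
    simp
  · rw [Real.sinc_of_ne_zero h]
    field_simp

theorem hq_cont : Continuous Pool.Agent.H770.GS.hq := by
  have e : Pool.Agent.H770.GS.hq = fun τ => 3 * (Real.sinc τ - Real.cos τ) ^ 2 := funext hq_eq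
  rw [e]
  exact continuous_const.mul ((Real.continuous_sinc.sub Real.continuous_cos).pow 2)

theorem hq_nonneg (τ : ℝ) : 0 ≤ Pool.Agent.H770.GS.hq τ := by
  rw [hq_eq]
  positivity

/-- the moments of `hq` -/
noncomputable def M (n : ℕ) : ℝ := ∫ τ in (0:ℝ)..Real.pi, Pool.Agent.H770.GS.hq τ * τ ^ n

theorem M_succ (n : ℕ) : M (n + 2) = 3 * K n := by
  unfold M K
  rw [← intervalIntegral.integral_const_mul]
  refine intervalIntegral.integral_congr fun τ _ => ?_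
  unfold Pool.Agent.H770.GS.hq kq
  by_cases h : τ = 0
  · subst h
    simp
  · field_simp
    ring

theorem M_0 : M 0 = (3 / 2 : ℝ) * Real.pi ^ 1 := by
  have hF : ∀ x ∈ Ioo (0 : ℝ) Real.pi, HasDerivAt
      (fun τ : ℝ => 3 * (-(Real.sin τ * Real.sinc τ) + (τ / 2 + Real.sin (2 * τ) / 4)))
      (Pool.Agent.H770.GS.hq x * x ^ 0) x := by
    intro x hx
    have hx0 : x ≠ 0 := hx.1.ne'
    have h1 : HasDerivAt (fun τ : ℝ => Real.sin τ * (Real.sin τ / τ))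
        (Real.cos x * (Real.sin x / x) + Real.sin x * ((Real.cos x * x - Real.sin x * 1) / x ^ 2))
        x := (Real.hasDerivAt_sin x).mul ((Real.hasDerivAt_sin x).div (hasDerivAt_id x) hx0)
    have h2 : HasDerivAt (fun τ : ℝ => Real.sin τ * Real.sinc τ)
        (Real.cos x * (Real.sin x / x) + Real.sin x * ((Real.cos x * x - Real.sin x * 1) / x ^ 2))
        x := by
      refine h1.congr_of_eventuallyEq ?_
      filter_upwards [isOpen_ne.mem_nhds hx0] with τ hτ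
      rw [Real.sinc_of_ne_zero hτ]
    have h3 : HasDerivAt (fun τ : ℝ => τ / 2 + Real.sin (2 * τ) / 4)
        (1 / 2 + Real.cos (2 * x) * (2 * 1) / 4) x :=
      ((hasDerivAt_id x).div_const 2).add ((((hasDerivAt_id x).const_mul 2).sin).div_const 4)
    have h4 := (h2.neg.add h3).const_mul 3
    refine h4.congr_deriv ?_
    unfold Pool.Agent.H770.GS.hq
    rw [Real.cos_two_mul, pow_zero, mul_one]
    field_simp
    ring
  have hc : ContinuousOn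
      (fun τ : ℝ => 3 * (-(Real.sin τ * Real.sinc τ) + (τ / 2 + Real.sin (2 * τ) / 4)))
      (Icc 0 Real.pi) := by
    have h1 := Real.continuous_sinc
    exact (by fun_prop : Continuous _).continuousOn
  have hcont := hq_cont
  unfold M
  rw [integral_eq_sub_of_hasDerivAt_of_le Real.pi_pos.le hc hF (ii (by fun_prop))]
  simp only [Real.sin_pi, Real.sin_zero, zero_mul, neg_zero, zero_add, mul_zero, zero_div,
    Real.sin_two_pi, add_zero, sub_zero]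
  ring

/-! ### Taylor polynomials -/

/-- The sums. -/
noncomputable def SS (w : ℝ → ℝ) (j n : ℕ) : ℝ :=
  ∑ i ∈ Finset.range n, ((-(15 / 100 : ℝ)) ^ i / (i.factorial : ℝ)) *
    ∫ τ in (0:ℝ)..Real.pi, w τ * τ ^ (2 * j + 2 * i)

theorem SS_eq (w : ℝ → ℝ) (hw : Continuous w) (j n : ℕ) :
    ∫ τ in (0:ℝ)..Real.pi, w τ * τ ^ (2 * j) * T n (0.15 * τ ^ 2) = SS w j n := by
  have e : ∀ τ : ℝ, w τ * τ ^ (2 * j) * T n (0.15 * τ ^ 2) =
      ∑ i ∈ Finset.range n, ((-(15 / 100 : ℝ)) ^ i / (i.factorial : ℝ)) *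
        (w τ * τ ^ (2 * j + 2 * i)) := by
    intro τ
    unfold T
    rw [Finset.mul_sum]
    refine Finset.sum_congr rfl fun i _ => ?_
    have e1 : (-(0.15 * τ ^ 2)) ^ i = (-(15 / 100 : ℝ)) ^ i * τ ^ (2 * i) := by
      rw [pow_mul, ← mul_pow]
      congr 1
      norm_num
    rw [e1, pow_add]
    ring
  simp only [e]
  rw [intervalIntegral.integral_finsetSum]
  · unfold SS
    refine Finset.sum_congr rfl fun i _ => ?_
    rw [intervalIntegral.integral_const_mul]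
  · intro i _
    exact ii (by fun_prop)

theorem low (w : ℝ → ℝ) (hw : Continuous w) (h0 : ∀ τ ∈ Icc (0 : ℝ) Real.pi, 0 ≤ w τ)
    (j n : ℕ) (hn : Even n) :
    SS w j n ≤ ∫ τ in (0:ℝ)..Real.pi, w τ * τ ^ (2 * j) * Real.exp (-(0.15 * τ ^ 2)) := by
  rw [← SS_eq w hw]
  have h2 := T_cont n
  refine intervalIntegral.integral_mono_on Real.pi_pos.le (ii (by fun_prop)) (ii (by fun_prop)) ?_
  intro τ hτ
  have h3 := alt n (0.15 * τ ^ 2) (by positivity)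
  rw [hn.neg_one_pow, one_mul] at h3
  have h4 : 0 ≤ w τ * τ ^ (2 * j) := mul_nonneg (h0 τ hτ) (pow_nonneg hτ.1 _)
  exact mul_le_mul_of_nonneg_left (by linarith) h4

theorem upp (w : ℝ → ℝ) (hw : Continuous w) (h0 : ∀ τ ∈ Icc (0 : ℝ) Real.pi, 0 ≤ w τ)
    (j n : ℕ) (hn : Odd n) :
    (∫ τ in (0:ℝ)..Real.pi, w τ * τ ^ (2 * j) * Real.exp (-(0.15 * τ ^ 2))) ≤ SS w j n := by
  rw [← SS_eq w hw]
  have h2 := T_cont n
  refine intervalIntegral.integral_mono_on Real.pi_pos.le (ii (by fun_prop)) (ii (by fun_prop)) ?_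
  intro τ hτ
  have h3 := alt n (0.15 * τ ^ 2) (by positivity)
  rw [hn.neg_one_pow] at h3
  have h4 : 0 ≤ w τ * τ ^ (2 * j) := mul_nonneg (h0 τ hτ) (pow_nonneg hτ.1 _)
  exact mul_le_mul_of_nonneg_left (by linarith) h4


theorem pl21 : (27551631841.0 : ℝ) ≤ Real.pi ^ 21 := by
  have h := pow_le_pow_left₀ (by norm_num) plo 21
  refine le_trans ?_ h
  norm_num

theorem pu21 : Real.pi ^ 21 ≤ (27551631843.0 : ℝ) := by
  have h := pow_le_pow_left₀ Real.pi_pos.le phi 21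
  refine le_trans h ?_
  norm_num

theorem pl23 : (271923706874.1 : ℝ) ≤ Real.pi ^ 23 := by
  have h := pow_le_pow_left₀ (by norm_num) plo 23
  refine le_trans ?_ h
  norm_num

theorem pu23 : Real.pi ^ 23 ≤ (271923706894.1 : ℝ) := by
  have h := pow_le_pow_left₀ Real.pi_pos.le phi 23
  refine le_trans h ?_
  norm_num

theorem C_20 : C 20 = (-9280784638125 / 4 : ℝ) * Real.pi ^ 1 + (3093594879375 / 2 : ℝ) * Real.pi ^ 3 + (-618718975875 / 2 : ℝ) * Real.pi ^ 5 + (29462808375 : ℝ) * Real.pi ^ 7 + (-3273645375 / 2 : ℝ) * Real.pi ^ 9 + (59520825 : ℝ) * Real.pi ^ 11 + (-1526175 : ℝ) * Real.pi ^ 13 + (29070 : ℝ) * Real.pi ^ 15 + (-855 / 2 : ℝ) * Real.pi ^ 17 + (5 : ℝ) * Real.pi ^ 19 := by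
  have h := C_rec 18
  rw [C_18] at h
  norm_num at h
  rw [h]
  ring

theorem K_0 : K 0 = (5 / 4 : ℝ) * Real.pi ^ 1 + (1 / 6 : ℝ) * Real.pi ^ 3 := by
  rw [K_eq, C_zero]
  norm_num
  ring

theorem M_2 : M 2 = (15 / 4 : ℝ) * Real.pi ^ 1 + (1 / 2 : ℝ) * Real.pi ^ 3 := by
  rw [M_succ 0, K_0]
  ring

theorem K_2 : K 2 = (-7 / 4 : ℝ) * Real.pi ^ 1 + (7 / 6 : ℝ) * Real.pi ^ 3 + (1 / 10 : ℝ) * Real.pi ^ 5 := by
  rw [K_eq, C_2]
  norm_num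
  ring

theorem M_4 : M 4 = (-21 / 4 : ℝ) * Real.pi ^ 1 + (7 / 2 : ℝ) * Real.pi ^ 3 + (3 / 10 : ℝ) * Real.pi ^ 5 := by
  rw [M_succ 2, K_2]
  ring

theorem K_4 : K 4 = (81 / 8 : ℝ) * Real.pi ^ 1 + (-27 / 4 : ℝ) * Real.pi ^ 3 + (27 / 20 : ℝ) * Real.pi ^ 5 + (1 / 14 : ℝ) * Real.pi ^ 7 := by
  rw [K_eq, C_4]
  norm_num
  ring

theorem M_6 : M 6 = (243 / 8 : ℝ) * Real.pi ^ 1 + (-81 / 4 : ℝ) * Real.pi ^ 3 + (81 / 20 : ℝ) * Real.pi ^ 5 + (3 / 14 : ℝ) * Real.pi ^ 7 := by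
  rw [M_succ 4, K_4]
  ring

theorem K_6 : K 6 = (-495 / 4 : ℝ) * Real.pi ^ 1 + (165 / 2 : ℝ) * Real.pi ^ 3 + (-33 / 2 : ℝ) * Real.pi ^ 5 + (11 / 7 : ℝ) * Real.pi ^ 7 + (1 / 18 : ℝ) * Real.pi ^ 9 := by
  rw [K_eq, C_6]
  norm_num
  ring

theorem M_8 : M 8 = (-1485 / 4 : ℝ) * Real.pi ^ 1 + (495 / 2 : ℝ) * Real.pi ^ 3 + (-99 / 2 : ℝ) * Real.pi ^ 5 + (33 / 7 : ℝ) * Real.pi ^ 7 + (1 / 6 : ℝ) * Real.pi ^ 9 := by
  rw [M_succ 6, K_6]
  ring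

theorem K_8 : K 8 = (20475 / 8 : ℝ) * Real.pi ^ 1 + (-6825 / 4 : ℝ) * Real.pi ^ 3 + (1365 / 4 : ℝ) * Real.pi ^ 5 + (-65 / 2 : ℝ) * Real.pi ^ 7 + (65 / 36 : ℝ) * Real.pi ^ 9 + (1 / 22 : ℝ) * Real.pi ^ 11 := by
  rw [K_eq, C_8]
  norm_num
  ring

theorem M_10 : M 10 = (61425 / 8 : ℝ) * Real.pi ^ 1 + (-20475 / 4 : ℝ) * Real.pi ^ 3 + (4095 / 4 : ℝ) * Real.pi ^ 5 + (-195 / 2 : ℝ) * Real.pi ^ 7 + (65 / 12 : ℝ) * Real.pi ^ 9 + (3 / 22 : ℝ) * Real.pi ^ 11 := by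
  rw [M_succ 8, K_8]
  ring

theorem K_10 : K 10 = (-637875 / 8 : ℝ) * Real.pi ^ 1 + (212625 / 4 : ℝ) * Real.pi ^ 3 + (-42525 / 4 : ℝ) * Real.pi ^ 5 + (2025 / 2 : ℝ) * Real.pi ^ 7 + (-225 / 4 : ℝ) * Real.pi ^ 9 + (45 / 22 : ℝ) * Real.pi ^ 11 + (1 / 26 : ℝ) * Real.pi ^ 13 := by
  rw [K_eq, C_10]
  norm_num
  ring

theorem M_12 : M 12 = (-1913625 / 8 : ℝ) * Real.pi ^ 1 + (637875 / 4 : ℝ) * Real.pi ^ 3 + (-127575 / 4 : ℝ) * Real.pi ^ 5 + (6075 / 2 : ℝ) * Real.pi ^ 7 + (-675 / 4 : ℝ) * Real.pi ^ 9 + (135 / 22 : ℝ) * Real.pi ^ 11 + (3 / 26 : ℝ) * Real.pi ^ 13 := by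
  rw [M_succ 10, K_10]
  ring

theorem K_12 : K 12 = (55665225 / 16 : ℝ) * Real.pi ^ 1 + (-18555075 / 8 : ℝ) * Real.pi ^ 3 + (3711015 / 8 : ℝ) * Real.pi ^ 5 + (-176715 / 4 : ℝ) * Real.pi ^ 7 + (19635 / 8 : ℝ) * Real.pi ^ 9 + (-357 / 4 : ℝ) * Real.pi ^ 11 + (119 / 52 : ℝ) * Real.pi ^ 13 + (1 / 30 : ℝ) * Real.pi ^ 15 := by
  rw [K_eq, C_12]
  norm_num
  ring

theorem M_14 : M 14 = (166995675 / 16 : ℝ) * Real.pi ^ 1 + (-55665225 / 8 : ℝ) * Real.pi ^ 3 + (11133045 / 8 : ℝ) * Real.pi ^ 5 + (-530145 / 4 : ℝ) * Real.pi ^ 7 + (58905 / 8 : ℝ) * Real.pi ^ 9 + (-1071 / 4 : ℝ) * Real.pi ^ 11 + (357 / 52 : ℝ) * Real.pi ^ 13 + (1 / 10 : ℝ) * Real.pi ^ 15 := by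
  rw [M_succ 12, K_12]
  ring

theorem K_14 : K 14 = (-808782975 / 4 : ℝ) * Real.pi ^ 1 + (269594325 / 2 : ℝ) * Real.pi ^ 3 + (-53918865 / 2 : ℝ) * Real.pi ^ 5 + (2567565 : ℝ) * Real.pi ^ 7 + (-285285 / 2 : ℝ) * Real.pi ^ 9 + (5187 : ℝ) * Real.pi ^ 11 + (-133 : ℝ) * Real.pi ^ 13 + (38 / 15 : ℝ) * Real.pi ^ 15 + (1 / 34 : ℝ) * Real.pi ^ 17 := by
  rw [K_eq, C_14]
  norm_num
  ring

theorem M_16 : M 16 = (-2426348925 / 4 : ℝ) * Real.pi ^ 1 + (808782975 / 2 : ℝ) * Real.pi ^ 3 + (-161756595 / 2 : ℝ) * Real.pi ^ 5 + (7702695 : ℝ) * Real.pi ^ 7 + (-855855 / 2 : ℝ) * Real.pi ^ 9 + (15561 : ℝ) * Real.pi ^ 11 + (-399 : ℝ) * Real.pi ^ 13 + (38 / 5 : ℝ) * Real.pi ^ 15 + (3 / 34 : ℝ) * Real.pi ^ 17 := by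
  rw [M_succ 14, K_14]
  ring

theorem K_16 : K 16 = (120678933375 / 8 : ℝ) * Real.pi ^ 1 + (-40226311125 / 4 : ℝ) * Real.pi ^ 3 + (8045262225 / 4 : ℝ) * Real.pi ^ 5 + (-383107725 / 2 : ℝ) * Real.pi ^ 7 + (42567525 / 4 : ℝ) * Real.pi ^ 9 + (-773955 / 2 : ℝ) * Real.pi ^ 11 + (19845 / 2 : ℝ) * Real.pi ^ 13 + (-189 : ℝ) * Real.pi ^ 15 + (189 / 68 : ℝ) * Real.pi ^ 17 + (1 / 38 : ℝ) * Real.pi ^ 19 := by
  rw [K_eq, C_16]
  norm_num
  ring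

theorem M_18 : M 18 = (362036800125 / 8 : ℝ) * Real.pi ^ 1 + (-120678933375 / 4 : ℝ) * Real.pi ^ 3 + (24135786675 / 4 : ℝ) * Real.pi ^ 5 + (-1149323175 / 2 : ℝ) * Real.pi ^ 7 + (127702575 / 4 : ℝ) * Real.pi ^ 9 + (-2321865 / 2 : ℝ) * Real.pi ^ 11 + (59535 / 2 : ℝ) * Real.pi ^ 13 + (-567 : ℝ) * Real.pi ^ 15 + (567 / 68 : ℝ) * Real.pi ^ 17 + (3 / 38 : ℝ) * Real.pi ^ 19 := by
  rw [M_succ 16, K_16]
  ring

theorem K_18 : K 18 = (-11234634035625 / 8 : ℝ) * Real.pi ^ 1 + (3744878011875 / 4 : ℝ) * Real.pi ^ 3 + (-748975602375 / 4 : ℝ) * Real.pi ^ 5 + (35665504875 / 2 : ℝ) * Real.pi ^ 7 + (-3962833875 / 4 : ℝ) * Real.pi ^ 9 + (72051525 / 2 : ℝ) * Real.pi ^ 11 + (-1847475 / 2 : ℝ) * Real.pi ^ 13 + (17595 : ℝ) * Real.pi ^ 15 + (-1035 / 4 : ℝ) * Real.pi ^ 17 + (115 / 38 : ℝ) * Real.pi ^ 19 + (1 / 42 : ℝ) * Real.pi ^ 21 := by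
  rw [K_eq, C_18]
  norm_num
  ring

theorem M_20 : M 20 = (-33703902106875 / 8 : ℝ) * Real.pi ^ 1 + (11234634035625 / 4 : ℝ) * Real.pi ^ 3 + (-2246926807125 / 4 : ℝ) * Real.pi ^ 5 + (106996514625 / 2 : ℝ) * Real.pi ^ 7 + (-11888501625 / 4 : ℝ) * Real.pi ^ 9 + (216154575 / 2 : ℝ) * Real.pi ^ 11 + (-5542425 / 2 : ℝ) * Real.pi ^ 13 + (52785 : ℝ) * Real.pi ^ 15 + (-3105 / 4 : ℝ) * Real.pi ^ 17 + (345 / 38 : ℝ) * Real.pi ^ 19 + (1 / 14 : ℝ) * Real.pi ^ 21 := by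
  rw [M_succ 18, K_18]
  ring

theorem K_20 : K 20 = (2552215775484375 / 16 : ℝ) * Real.pi ^ 1 + (-850738591828125 / 8 : ℝ) * Real.pi ^ 3 + (170147718365625 / 8 : ℝ) * Real.pi ^ 5 + (-8102272303125 / 4 : ℝ) * Real.pi ^ 7 + (900252478125 / 8 : ℝ) * Real.pi ^ 9 + (-16368226875 / 4 : ℝ) * Real.pi ^ 11 + (419698125 / 4 : ℝ) * Real.pi ^ 13 + (-3997125 / 2 : ℝ) * Real.pi ^ 15 + (235125 / 8 : ℝ) * Real.pi ^ 17 + (-1375 / 4 : ℝ) * Real.pi ^ 19 + (275 / 84 : ℝ) * Real.pi ^ 21 + (1 / 46 : ℝ) * Real.pi ^ 23 := by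
  rw [K_eq, C_20]
  norm_num
  ring

theorem M_22 : M 22 = (7656647326453125 / 16 : ℝ) * Real.pi ^ 1 + (-2552215775484375 / 8 : ℝ) * Real.pi ^ 3 + (510443155096875 / 8 : ℝ) * Real.pi ^ 5 + (-24306816909375 / 4 : ℝ) * Real.pi ^ 7 + (2700757434375 / 8 : ℝ) * Real.pi ^ 9 + (-49104680625 / 4 : ℝ) * Real.pi ^ 11 + (1259094375 / 4 : ℝ) * Real.pi ^ 13 + (-11991375 / 2 : ℝ) * Real.pi ^ 15 + (705375 / 8 : ℝ) * Real.pi ^ 17 + (-4125 / 4 : ℝ) * Real.pi ^ 19 + (275 / 28 : ℝ) * Real.pi ^ 21 + (3 / 46 : ℝ) * Real.pi ^ 23 := by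
  rw [M_succ 20, K_20]
  ring

theorem SS_1 : SS gg 0 6 = (74051091 / 81920000 : ℝ) * Real.pi ^ 1 + (-4203697 / 40960000 : ℝ) * Real.pi ^ 3 + (1643697 / 204800000 : ℝ) * Real.pi ^ 5 + (-279099 / 716800000 : ℝ) * Real.pi ^ 7 + (2373 / 204800000 : ℝ) * Real.pi ^ 9 + (-1053 / 5632000000 : ℝ) * Real.pi ^ 11 := by
  have e : SS gg 0 6 = ∑ i ∈ Finset.range 6, ((-(15 / 100 : ℝ)) ^ i / (i.factorial : ℝ)) *
      I (2 * 0 + 2 * i) := rfl
  rw [e]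
  simp only [Finset.sum_range_succ, Finset.sum_range_zero, Nat.factorial, Nat.reduceMul,
    Nat.reduceAdd, mul_zero, add_zero, zero_add]
  rw [I_0, I_2, I_4, I_6, I_8, I_10]
  push_cast
  ring

theorem b1 : (1.226 : ℝ) ≤ SS gg 0 6 := by
  rw [SS_1]
  linarith [pl1, pu3, pl5, pu7, pl9, pu11]

theorem SS_2 : SS gg 1 8 = (-1926401527 / 655360000 : ℝ) * Real.pi ^ 1 + (1926401527 / 983040000 : ℝ) * Real.pi ^ 3 + (-505600509 / 1638400000 : ℝ) * Real.pi ^ 5 + (139861503 / 5734400000 : ℝ) * Real.pi ^ 7 + (-1890881 / 1638400000 : ℝ) * Real.pi ^ 9 + (1609281 / 45056000000 : ℝ) * Real.pi ^ 11 + (-40257 / 53248000000 : ℝ) * Real.pi ^ 13 + (783 / 71680000000 : ℝ) * Real.pi ^ 15 + (-4617 / 48742400000000 : ℝ) * Real.pi ^ 17 := by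
  have e : SS gg 1 8 = ∑ i ∈ Finset.range 8, ((-(15 / 100 : ℝ)) ^ i / (i.factorial : ℝ)) *
      I (2 * 1 + 2 * i) := rfl
  rw [e]
  simp only [Finset.sum_range_succ, Finset.sum_range_zero, Nat.factorial, Nat.reduceMul,
    Nat.reduceAdd, mul_zero, add_zero, zero_add]
  rw [I_2, I_4, I_6, I_8, I_10, I_12, I_14, I_16]
  push_cast
  ring

theorem b2 : (4.94 : ℝ) ≤ SS gg 1 8 := by
  rw [SS_2]
  linarith [pu1, pl3, pu5, pl7, pu9, pl11, pu13, pl15, pu17]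

theorem SS_3 : SS gg 1 7 = (-15894856477 / 6553600000 : ℝ) * Real.pi ^ 1 + (15894856477 / 9830400000 : ℝ) * Real.pi ^ 3 + (-3932952159 / 16384000000 : ℝ) * Real.pi ^ 5 + (1024264053 / 57344000000 : ℝ) * Real.pi ^ 7 + (-12966731 / 16384000000 : ℝ) * Real.pi ^ 9 + (10150731 / 450560000000 : ℝ) * Real.pi ^ 11 + (-222507 / 532480000000 : ℝ) * Real.pi ^ 13 + (459 / 102400000000 : ℝ) * Real.pi ^ 15 := by
  have e : SS gg 1 7 = ∑ i ∈ Finset.range 7, ((-(15 / 100 : ℝ)) ^ i / (i.factorial : ℝ)) *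
      I (2 * 1 + 2 * i) := rfl
  rw [e]
  simp only [Finset.sum_range_succ, Finset.sum_range_zero, Nat.factorial, Nat.reduceMul,
    Nat.reduceAdd, mul_zero, add_zero, zero_add]
  rw [I_2, I_4, I_6, I_8, I_10, I_12, I_14]
  push_cast
  ring

theorem b3 : SS gg 1 7 ≤ (4.97 : ℝ) := by
  rw [SS_3]
  linarith [pl1, pu3, pl5, pu7, pl9, pu11, pl13, pu15]

theorem SS_4 : SS gg 2 8 = (1425967727151 / 13107200000 : ℝ) * Real.pi ^ 1 + (-475322575717 / 6553600000 : ℝ) * Real.pi ^ 3 + (475322575717 / 32768000000 : ℝ) * Real.pi ^ 5 + (-154617925239 / 114688000000 : ℝ) * Real.pi ^ 7 + (2366481353 / 32768000000 : ℝ) * Real.pi ^ 9 + (-2253841353 / 901120000000 : ℝ) * Real.pi ^ 11 + (63760041 / 1064960000000 : ℝ) * Real.pi ^ 13 + (-209817 / 204800000000 : ℝ) * Real.pi ^ 15 + (173097 / 13926400000000 : ℝ) * Real.pi ^ 17 + (-729 / 7782400000000 : ℝ) * Real.pi ^ 19 := by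
  have e : SS gg 2 8 = ∑ i ∈ Finset.range 8, ((-(15 / 100 : ℝ)) ^ i / (i.factorial : ℝ)) *
      I (2 * 2 + 2 * i) := rfl
  rw [e]
  simp only [Finset.sum_range_succ, Finset.sum_range_zero, Nat.factorial, Nat.reduceMul,
    Nat.reduceAdd, mul_zero, add_zero, zero_add]
  rw [I_4, I_6, I_8, I_10, I_12, I_14, I_16, I_18]
  push_cast
  ring

theorem b4 : (24.7 : ℝ) ≤ SS gg 2 8 := by
  rw [SS_4]
  linarith [pl1, pu3, pl5, pu7, pl9, pu11, pl13, pu15, pl17, pu19]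

theorem SS_5 : SS gg 2 7 = (21405631071 / 327680000 : ℝ) * Real.pi ^ 1 + (-7135210357 / 163840000 : ℝ) * Real.pi ^ 3 + (7135210357 / 819200000 : ℝ) * Real.pi ^ 5 + (-2282830119 / 2867200000 : ℝ) * Real.pi ^ 7 + (34041113 / 819200000 : ℝ) * Real.pi ^ 9 + (-31225113 / 22528000000 : ℝ) * Real.pi ^ 11 + (832761 / 26624000000 : ℝ) * Real.pi ^ 13 + (-2457 / 5120000000 : ℝ) * Real.pi ^ 15 + (1539 / 348160000000 : ℝ) * Real.pi ^ 17 := by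
  have e : SS gg 2 7 = ∑ i ∈ Finset.range 7, ((-(15 / 100 : ℝ)) ^ i / (i.factorial : ℝ)) *
      I (2 * 2 + 2 * i) := rfl
  rw [e]
  simp only [Finset.sum_range_succ, Finset.sum_range_zero, Nat.factorial, Nat.reduceMul,
    Nat.reduceAdd, mul_zero, add_zero, zero_add]
  rw [I_4, I_6, I_8, I_10, I_12, I_14, I_16]
  push_cast
  ring

theorem b5 : SS gg 2 7 ≤ (25.0 : ℝ) := by
  rw [SS_5]
  linarith [pu1, pl3, pu5, pl7, pu9, pl11, pu13, pl15, pu17]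

theorem SS_6 : SS gg 3 7 = (-2576668355019 / 655360000 : ℝ) * Real.pi ^ 1 + (858889451673 / 327680000 : ℝ) * Real.pi ^ 3 + (-858889451673 / 1638400000 : ℝ) * Real.pi ^ 5 + (286296483891 / 5734400000 : ℝ) * Real.pi ^ 7 + (-13545394471 / 4915200000 : ℝ) * Real.pi ^ 9 + (4440038157 / 45056000000 : ℝ) * Real.pi ^ 11 + (-130008429 / 53248000000 : ℝ) * Real.pi ^ 13 + (444573 / 10240000000 : ℝ) * Real.pi ^ 15 + (-383373 / 696320000000 : ℝ) * Real.pi ^ 17 + (1701 / 389120000000 : ℝ) * Real.pi ^ 19 := by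
  have e : SS gg 3 7 = ∑ i ∈ Finset.range 7, ((-(15 / 100 : ℝ)) ^ i / (i.factorial : ℝ)) *
      I (2 * 3 + 2 * i) := rfl
  rw [e]
  simp only [Finset.sum_range_succ, Finset.sum_range_zero, Nat.factorial, Nat.reduceMul,
    Nat.reduceAdd, mul_zero, add_zero, zero_add]
  rw [I_6, I_8, I_10, I_12, I_14, I_16, I_18]
  push_cast
  ring

theorem b6 : SS gg 3 7 ≤ (144 : ℝ) := by
  rw [SS_6]
  linarith [pl1, pu3, pl5, pu7, pl9, pu11, pl13, pu15, pl17, pu19]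

theorem SS_7 : SS Pool.Agent.H770.GS.hq 0 8 = (55138001577 / 65536000000 : ℝ) * Real.pi ^ 1 + (-356933859 / 32768000000 : ℝ) * Real.pi ^ 3 + (-257466141 / 163840000000 : ℝ) * Real.pi ^ 5 + (10943721 / 81920000000 : ℝ) * Real.pi ^ 7 + (-831969 / 163840000000 : ℝ) * Real.pi ^ 9 + (457569 / 4505600000000 : ℝ) * Real.pi ^ 11 + (-2673 / 5324800000000 : ℝ) * Real.pi ^ 13 + (-243 / 7168000000000 : ℝ) * Real.pi ^ 15 := by
  have e : SS Pool.Agent.H770.GS.hq 0 8 = ∑ i ∈ Finset.range 8, ((-(15 / 100 : ℝ)) ^ i / (i.factorial : ℝ)) *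
      M (2 * 0 + 2 * i) := rfl
  rw [e]
  simp only [Finset.sum_range_succ, Finset.sum_range_zero, Nat.factorial, Nat.reduceMul,
    Nat.reduceAdd, mul_zero, add_zero, zero_add]
  rw [M_0, M_2, M_4, M_6, M_8, M_10, M_12, M_14]
  push_cast
  ring

theorem b7 : (2.101 : ℝ) ≤ SS Pool.Agent.H770.GS.hq 0 8 := by
  rw [SS_7]
  linarith [pl1, pu3, pu5, pl7, pu9, pl11, pu13, pu15]

theorem SS_8 : SS Pool.Agent.H770.GS.hq 1 8 = (11821333341 / 2048000000 : ℝ) * Real.pi ^ 1 + (-868444447 / 1024000000 : ℝ) * Real.pi ^ 3 + (612444447 / 5120000000 : ℝ) * Real.pi ^ 5 + (-159988149 / 17920000000 : ℝ) * Real.pi ^ 7 + (1990923 / 5120000000 : ℝ) * Real.pi ^ 9 + (-1480923 / 140800000000 : ℝ) * Real.pi ^ 11 + (2187 / 12800000000 : ℝ) * Real.pi ^ 13 + (-891 / 896000000000 : ℝ) * Real.pi ^ 15 + (-729 / 24371200000000 : ℝ) * Real.pi ^ 17 := by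
  have e : SS Pool.Agent.H770.GS.hq 1 8 = ∑ i ∈ Finset.range 8, ((-(15 / 100 : ℝ)) ^ i / (i.factorial : ℝ)) *
      M (2 * 1 + 2 * i) := rfl
  rw [e]
  simp only [Finset.sum_range_succ, Finset.sum_range_zero, Nat.factorial, Nat.reduceMul,
    Nat.reduceAdd, mul_zero, add_zero, zero_add]
  rw [M_2, M_4, M_6, M_8, M_10, M_12, M_14, M_16]
  push_cast
  ring

theorem b8 : (10.42 : ℝ) ≤ SS Pool.Agent.H770.GS.hq 1 8 := by
  rw [SS_8]
  linarith [pl1, pu3, pl5, pu7, pl9, pu11, pl13, pu15, pu17]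

theorem SS_9 : SS Pool.Agent.H770.GS.hq 1 9 = (6354151044639 / 1048576000000 : ℝ) * Real.pi ^ 1 + (-545186348213 / 524288000000 : ℝ) * Real.pi ^ 3 + (414114348213 / 2621440000000 : ℝ) * Real.pi ^ 5 + (-115428196071 / 9175040000000 : ℝ) * Real.pi ^ 7 + (1551325017 / 2621440000000 : ℝ) * Real.pi ^ 9 + (-1290205017 / 72089600000000 : ℝ) * Real.pi ^ 11 + (2359773 / 6553600000000 : ℝ) * Real.pi ^ 13 + (-527391 / 114688000000000 : ℝ) * Real.pi ^ 15 + (180063 / 7798784000000000 : ℝ) * Real.pi ^ 17 + (2187 / 4358144000000000 : ℝ) * Real.pi ^ 19 := by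
  have e : SS Pool.Agent.H770.GS.hq 1 9 = ∑ i ∈ Finset.range 9, ((-(15 / 100 : ℝ)) ^ i / (i.factorial : ℝ)) *
      M (2 * 1 + 2 * i) := rfl
  rw [e]
  simp only [Finset.sum_range_succ, Finset.sum_range_zero, Nat.factorial, Nat.reduceMul,
    Nat.reduceAdd, mul_zero, add_zero, zero_add]
  rw [M_2, M_4, M_6, M_8, M_10, M_12, M_14, M_16, M_18]
  push_cast
  ring

theorem b9 : SS Pool.Agent.H770.GS.hq 1 9 ≤ (10.45 : ℝ) := by
  rw [SS_9]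
  linarith [pu1, pl3, pu5, pl7, pu9, pl11, pu13, pl15, pu17, pu19]

theorem SS_10 : SS Pool.Agent.H770.GS.hq 2 8 = (-71945774889 / 1310720000 : ℝ) * Real.pi ^ 1 + (23981924963 / 655360000 : ℝ) * Real.pi ^ 3 + (-20705124963 / 3276800000 : ℝ) * Real.pi ^ 5 + (6197196321 / 11468800000 : ℝ) * Real.pi ^ 7 + (-88420767 / 3276800000 : ℝ) * Real.pi ^ 9 + (7060797 / 8192000000 : ℝ) * Real.pi ^ 11 + (-1950399 / 106496000000 : ℝ) * Real.pi ^ 13 + (5103 / 20480000000 : ℝ) * Real.pi ^ 15 + (-9963 / 6963200000000 : ℝ) * Real.pi ^ 17 + (-729 / 27238400000000 : ℝ) * Real.pi ^ 19 := by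
  have e : SS Pool.Agent.H770.GS.hq 2 8 = ∑ i ∈ Finset.range 8, ((-(15 / 100 : ℝ)) ^ i / (i.factorial : ℝ)) *
      M (2 * 2 + 2 * i) := rfl
  rw [e]
  simp only [Finset.sum_range_succ, Finset.sum_range_zero, Nat.factorial, Nat.reduceMul,
    Nat.reduceAdd, mul_zero, add_zero, zero_add]
  rw [M_4, M_6, M_8, M_10, M_12, M_14, M_16, M_18]
  push_cast
  ring

theorem b10 : (63.1 : ℝ) ≤ SS Pool.Agent.H770.GS.hq 2 8 := by
  rw [SS_10]
  linarith [pu1, pl3, pu5, pl7, pu9, pl11, pu13, pl15, pu17, pu19]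

theorem SS_11 : SS Pool.Agent.H770.GS.hq 2 9 = (-17127357041877 / 209715200000 : ℝ) * Real.pi ^ 1 + (5709119013959 / 104857600000 : ℝ) * Real.pi ^ 3 + (-5184831013959 / 524288000000 : ℝ) * Real.pi ^ 5 + (1615555084653 / 1835008000000 : ℝ) * Real.pi ^ 7 + (-24052142931 / 524288000000 : ℝ) * Real.pi ^ 9 + (2030165721 / 1310720000000 : ℝ) * Real.pi ^ 11 + (-612209907 / 17039360000000 : ℝ) * Real.pi ^ 13 + (13411413 / 22937600000000 : ℝ) * Real.pi ^ 15 + (-1985553 / 311951360000000 : ℝ) * Real.pi ^ 17 + (26973 / 871628800000000 : ℝ) * Real.pi ^ 19 + (729 / 1605632000000000 : ℝ) * Real.pi ^ 21 := by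
  have e : SS Pool.Agent.H770.GS.hq 2 9 = ∑ i ∈ Finset.range 9, ((-(15 / 100 : ℝ)) ^ i / (i.factorial : ℝ)) *
      M (2 * 2 + 2 * i) := rfl
  rw [e]
  simp only [Finset.sum_range_succ, Finset.sum_range_zero, Nat.factorial, Nat.reduceMul,
    Nat.reduceAdd, mul_zero, add_zero, zero_add]
  rw [M_4, M_6, M_8, M_10, M_12, M_14, M_16, M_18, M_20]
  push_cast
  ring

theorem b11 : SS Pool.Agent.H770.GS.hq 2 9 ≤ (63.4 : ℝ) := by
  rw [SS_11]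
  linarith [pl1, pu3, pl5, pu7, pl9, pu11, pl13, pu15, pl17, pu19, pu21]

theorem SS_12 : SS Pool.Agent.H770.GS.hq 3 9 = (511450519606479 / 83886080000 : ℝ) * Real.pi ^ 1 + (-170483506535493 / 41943040000 : ℝ) * Real.pi ^ 3 + (170483506535493 / 209715200000 : ℝ) * Real.pi ^ 5 + (-56387433591831 / 734003200000 : ℝ) * Real.pi ^ 7 + (884053546537 / 209715200000 : ℝ) * Real.pi ^ 9 + (-867669546537 / 5767168000000 : ℝ) * Real.pi ^ 11 + (25515521289 / 6815744000000 : ℝ) * Real.pi ^ 13 + (-620924751 / 9175040000000 : ℝ) * Real.pi ^ 15 + (561315663 / 623902720000000 : ℝ) * Real.pi ^ 17 + (-2923047 / 348651520000000 : ℝ) * Real.pi ^ 19 + (24543 / 642252800000000 : ℝ) * Real.pi ^ 21 + (2187 / 5275648000000000 : ℝ) * Real.pi ^ 23 := by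
  have e : SS Pool.Agent.H770.GS.hq 3 9 = ∑ i ∈ Finset.range 9, ((-(15 / 100 : ℝ)) ^ i / (i.factorial : ℝ)) *
      M (2 * 3 + 2 * i) := rfl
  rw [e]
  simp only [Finset.sum_range_succ, Finset.sum_range_zero, Nat.factorial, Nat.reduceMul,
    Nat.reduceAdd, mul_zero, add_zero, zero_add]
  rw [M_6, M_8, M_10, M_12, M_14, M_16, M_18, M_20, M_22]
  push_cast
  ring

theorem b12 : SS Pool.Agent.H770.GS.hq 3 9 ≤ (434 : ℝ) := by
  rw [SS_12]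
  linarith [pu1, pl3, pu5, pl7, pu9, pl11, pu13, pl15, pu17, pl19, pu21, pu23]

theorem tk8 : Pool.Agent.H770.GS.S_TK8 := by
  have hg : Pool.Agent.H770.GS.gg = gg := rfl
  unfold Pool.Agent.H770.GS.S_TK8
  rw [hg]
  have g0 : ∀ τ ∈ Icc (0 : ℝ) Real.pi, 0 ≤ gg τ := fun τ hτ => gg_nonneg hτ.1 hτ.2
  have q0 : ∀ τ ∈ Icc (0 : ℝ) Real.pi, 0 ≤ Pool.Agent.H770.GS.hq τ := fun τ _ => hq_nonneg τ
  have e1 := low gg gg_cont g0 0 6 (by decide)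
  have e2 := low gg gg_cont g0 1 8 (by decide)
  have e3 := upp gg gg_cont g0 1 7 (by decide)
  have e4 := low gg gg_cont g0 2 8 (by decide)
  have e5 := upp gg gg_cont g0 2 7 (by decide)
  have e6 := upp gg gg_cont g0 3 7 (by decide)
  have e7 := low _ hq_cont q0 0 8 (by decide)
  have e8 := low _ hq_cont q0 1 8 (by decide)
  have e9 := upp _ hq_cont q0 1 9 (by decide)
  have e10 := low _ hq_cont q0 2 8 (by decide)
  have e11 := upp _ hq_cont q0 2 9 (by decide)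
  have e12 := upp _ hq_cont q0 3 9 (by decide)
  simp only [mul_zero, pow_zero, mul_one] at e1 e7
  exact ⟨b1.trans e1, b2.trans e2, e3.trans b3, b4.trans e4, e5.trans b5, e6.trans b6,
    b7.trans e7, b8.trans e8, e9.trans b9, b10.trans e10, e11.trans b11, e12.trans b12⟩

end Pool.Agent.H152.TK8
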